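import Pool.Agent.Helper81.CP.Tri

/-!
# Graded cut-and-paste properties of schemes of finite type over `ℤ`
-/

set_option autoImplicit false

open AlgebraicGeometry CategoryTheory TopologicalSpace

namespace Pool.Agent.Helper81.CP

/-- `X` is of finite type over `ℤ` -/
def IsFT (X : Scheme.{0}) : Prop :=
  ∃ f : X ⟶ Spec (CommRingCat.of ℤ), LocallyOfFiniteType f ∧ QuasiCompact f

/-- a graded cut-and-paste property of schemes of finite type over `ℤ` -/
structure SchemeCP (P : Scheme.{0} → ℤ → Prop) : Prop where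
  empty : ∀ X : Scheme.{0}, IsEmpty X → ∀ s, P X s
  bdd : ∀ X, IsFT X → ∃ s₀ : ℤ, ∀ s, s₀ ≤ s → P X s
  glue : ∀ (X Z U : Scheme.{0}) (ι : Z ⟶ X) (j : U ⟶ X), IsFT X → IsClosedImmersion ι →
    IsOpenImmersion j → Set.range j = (Set.range ι)ᶜ → ∀ s, P Z s → P U s → P X s
  opn : ∀ (X Z U : Scheme.{0}) (ι : Z ⟶ X) (j : U ⟶ X), IsFT X → IsClosedImmersion ι →
    IsOpenImmersion j → Set.range j = (Set.range ι)ᶜ → ∀ s, P X s → P Z s → P U s
  closed : ∀ (X Z U : Scheme.{0}) (ι : Z ⟶ X) (j : U ⟶ X), IsFT X → IsClosedImmersion ι →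
    IsOpenImmersion j → Set.range j = (Set.range ι)ᶜ → ∀ s, P X s → P U s → P Z s
  line : ∀ (R : Type) [CommRing R], IsFT (Spec (CommRingCat.of R)) → ∀ s : ℤ,
    P (Spec (CommRingCat.of (Polynomial R))) (s + 1) ↔ P (Spec (CommRingCat.of R)) s

lemma ft_iff_finiteType {R : Type} [CommRing R] : FT R ↔ (algebraMap ℤ R).FiniteType := by
  constructor
  · rintro ⟨n, φ, hφ⟩
    have h1 : (algebraMap ℤ R) = φ.comp (algebraMap ℤ (MvPolynomial (Fin n) ℤ)) :=
      RingHom.ext_int _ _
    rw [h1]
    refine RingHom.FiniteType.comp_surjective ?_ hφ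
    exact RingHom.finiteType_algebraMap.mpr inferInstance
  · intro h
    rw [RingHom.finiteType_algebraMap] at h
    obtain ⟨n, f, hf⟩ := Algebra.FiniteType.iff_quotient_mvPolynomial''.mp h
    exact ⟨n, (f : MvPolynomial (Fin n) ℤ →+* R), hf⟩

lemma FT.isFT {R : Type} [CommRing R] (h : FT R) : IsFT (Spec (CommRingCat.of R)) := by
  refine ⟨Spec.map (CommRingCat.ofHom (algebraMap ℤ R)), ?_, inferInstance⟩
  rw [HasRingHomProperty.Spec_iff (P := @LocallyOfFiniteType)]
  exact ft_iff_finiteType.mp h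

lemma IsFT.ft {R : Type} [CommRing R] (h : IsFT (Spec (CommRingCat.of R))) : FT R := by
  obtain ⟨f, hf, _⟩ := h
  obtain ⟨φ, hφ⟩ := Spec.map_surjective f
  rw [← hφ] at hf
  have h2 : φ.hom.FiniteType := (HasRingHomProperty.Spec_iff (P := @LocallyOfFiniteType)).mp hf
  have h3 : φ.hom = algebraMap ℤ R := RingHom.ext_int _ _
  rw [h3] at h2
  exact ft_iff_finiteType.mpr h2

lemma IsFT.comp {X Y : Scheme.{0}} (f : X ⟶ Y) (hY : IsFT Y) (hf : LocallyOfFiniteType f)
    (hf' : QuasiCompact f) : IsFT X := by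
  obtain ⟨g, hg, hg'⟩ := hY
  exact ⟨f ≫ g, inferInstance, inferInstance⟩

lemma IsFT.isNoetherian {X : Scheme.{0}} (h : IsFT X) : IsNoetherian X := by
  obtain ⟨f, hf, hf'⟩ := h
  have h1 : IsLocallyNoetherian X := LocallyOfFiniteType.isLocallyNoetherian f
  have h2 : CompactSpace X := QuasiCompact.compactSpace_of_compactSpace f
  exact { __ := h1, __ := h2 }

lemma IsFT.of_isOpenImmersion {X U : Scheme.{0}} (h : IsFT X) (j : U ⟶ X)
    (hj : IsOpenImmersion j) : IsFT U := by
  have := h.isNoetherian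
  have h1 : NoetherianSpace U := j.isOpenEmbedding.isInducing.noetherianSpace
  exact h.comp j inferInstance inferInstance

lemma IsFT.of_isClosedImmersion {X Z : Scheme.{0}} (h : IsFT X) (ι : Z ⟶ X)
    (hι : IsClosedImmersion ι) : IsFT Z :=
  h.comp ι inferInstance inferInstance

/-- the complement of an open immersion is the image of a closed immersion -/
lemma exists_complement {X : Scheme.{0}} (C : Set X) (hC : IsClosed C) :
    ∃ (Z : Scheme.{0}) (ι : Z ⟶ X), IsClosedImmersion ι ∧ Set.range ι = C := by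
  refine ⟨(Scheme.IdealSheafData.vanishingIdeal ⟨C, hC⟩).subscheme,
    (Scheme.IdealSheafData.vanishingIdeal ⟨C, hC⟩).subschemeι, inferInstance, ?_⟩
  rw [Scheme.IdealSheafData.range_subschemeι, Scheme.IdealSheafData.coe_support_vanishingIdeal]
  rfl

section

variable {P : Scheme.{0} → ℤ → Prop} (hP : SchemeCP P)

include hP

lemma SchemeCP.iso {X Y : Scheme.{0}} (hX : IsFT X) (e : Y ≅ X) (s : ℤ) : P Y s ↔ P X s := by
  have h0 : Set.range (Scheme.emptyTo X) = (Set.range e.hom)ᶜ := by
    have h1 : Set.range e.hom = Set.univ := by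
      rw [Set.range_eq_univ]
      exact e.hom.homeomorph.surjective
    rw [h1, Set.compl_univ, Set.range_eq_empty_iff]
    infer_instance
  have h2 : IsClosedImmersion e.hom := inferInstance
  have h3 : IsOpenImmersion (Scheme.emptyTo X) := inferInstance
  constructor
  · intro h
    exact hP.glue X Y ∅ e.hom (Scheme.emptyTo X) hX h2 h3 h0 s h (hP.empty _ inferInstance s)
  · intro h
    exact hP.closed X Y ∅ e.hom (Scheme.emptyTo X) hX h2 h3 h0 s h (hP.empty _ inferInstance s)

lemma SchemeCP.ringCP : RingCP (fun R _ s => P (Spec (CommRingCat.of R)) s) := by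
  have hcl : ∀ (R : Type) [CommRing R] (f : R),
      IsClosedImmersion (Spec.map (CommRingCat.ofHom (Ideal.Quotient.mk (Ideal.span {f})))) :=
    fun R _ f => IsClosedImmersion.spec_of_surjective _ Ideal.Quotient.mk_surjective
  have hop : ∀ (R : Type) [CommRing R] (f : R),
      IsOpenImmersion (Spec.map (CommRingCat.ofHom (algebraMap R (Localization.Away f)))) :=
    fun R _ f => IsOpenImmersion.of_isLocalization f
  have hr : ∀ (R : Type) [CommRing R] (f : R),
      Set.range (Spec.map (CommRingCat.ofHom (algebraMap R (Localization.Away f)))) =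
      (Set.range (Spec.map (CommRingCat.ofHom (Ideal.Quotient.mk (Ideal.span {f})))))ᶜ := by
    intro R _ f
    have h1 := PrimeSpectrum.localization_away_comap_range (Localization.Away f) f
    have h2 := _root_.range_comap_of_surjective (R ⧸ Ideal.span {f})
      (Ideal.Quotient.mk (Ideal.span {f})) Ideal.Quotient.mk_surjective
    refine h1.trans ?_
    refine Eq.trans ?_ (congrArg (fun S : Set (PrimeSpectrum R) => Sᶜ) h2).symm
    rw [Ideal.mk_ker, PrimeSpectrum.zeroLocus_span, PrimeSpectrum.basicOpen_eq_zeroLocus_compl]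
  constructor
  · intro R S _ _ hR e s h
    have e' : Spec (CommRingCat.of S) ≅ Spec (CommRingCat.of R) :=
      Scheme.Spec.mapIso e.toCommRingCatIso.op
    exact (hP.iso hR.isFT e' s).mpr h
  · intro R _ hR
    exact hP.bdd _ hR.isFT
  · intro R _ hR f s h1 h2
    exact hP.glue _ _ _ _ _ hR.isFT (hcl R f) (hop R f) (hr R f) s h1 h2
  · intro R _ hR f s h1 h2
    exact hP.opn _ _ _ _ _ hR.isFT (hcl R f) (hop R f) (hr R f) s h1 h2
  · intro R _ hR f s h1 h2
    exact hP.closed _ _ _ _ _ hR.isFT (hcl R f) (hop R f) (hr R f) s h1 h2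
  · intro R _ hR s
    exact hP.line R hR.isFT s

end

/-- the hypersurface `form n T = c` in affine space over `ℤ` -/
noncomputable def Hyp (n : ℕ) (c : ℤ) (T : Finset (Fin n × Fin n × Fin n)) : Scheme.{0} :=
  Spec (CommRingCat.of
    (MvPolynomial (Fin 3 × Fin n) ℤ ⧸ Ideal.span {form n T - MvPolynomial.C c}))

/-- **Induction principle.** For each scheme `X` of finite type over `ℤ` and all large `n`, a
graded cut-and-paste property which holds for the schemes `form n T = c`, where `c = 0` or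
`c = 1`, holds for `X`. -/
theorem exists_bound_scheme (X : Scheme.{0}) (hX : IsFT X) :
    ∃ N : ℕ, ∀ n, N ≤ n → ∀ c : ℤ, c = 0 ∨ c = 1 → ∀ P : Scheme.{0} → ℤ → Prop, SchemeCP P →
      (∀ (T : Finset (Fin n × Fin n × Fin n)) (s : ℤ), P (Hyp n c T) s) → ∀ s, P X s := by
  have := hX.isNoetherian
  have hwf : WellFoundedLT (Closeds X) := inferInstance
  have key : ∀ C : Closeds X, ∀ (Z : Scheme.{0}) (ι : Z ⟶ X), IsClosedImmersion ι →
      Set.range ι ⊆ C →
      ∃ N : ℕ, ∀ n, N ≤ n → ∀ c : ℤ, c = 0 ∨ c = 1 → ∀ P : Scheme.{0} → ℤ → Prop, SchemeCP P →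
      (∀ (T : Finset (Fin n × Fin n × Fin n)) (s : ℤ), P (Hyp n c T) s) → ∀ s, P Z s := by
    intro C
    induction C using hwf.induction with
    | ind C ih =>
      intro Z ι hι hr
      have hZ : IsFT Z := hX.of_isClosedImmersion ι hι
      rcases isEmpty_or_nonempty Z with he | ⟨⟨z⟩⟩
      · exact ⟨0, fun n _ c _ P hP _ s => hP.empty Z he s⟩
      · obtain ⟨A, j, hj, hz, _⟩ :=
          Scheme.exists_affine_mem_range_and_range_subset (TopologicalSpace.Opens.mem_top z)
        have hopen : IsOpen (Set.range j) := j.isOpenEmbedding.isOpen_range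
        obtain ⟨Z', ι', hι', hr'⟩ := exists_complement (Set.range j)ᶜ hopen.isClosed_compl
        have hA : FT A := (hZ.of_isOpenImmersion j hj).ft
        obtain ⟨N₁, hN₁⟩ := exists_bound A hA
        have hcomp : IsClosedImmersion (ι' ≫ ι) := inferInstance
        have hlt : (⟨Set.range (ι' ≫ ι), (ι' ≫ ι).isClosedEmbedding.isClosed_range⟩ :
            Closeds X) < C := by
          have hle : Set.range (ι' ≫ ι) ⊆ (C : Set X) := by
            rintro _ ⟨y, rfl⟩
            rw [Scheme.Hom.comp_apply]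
            exact hr ⟨_, rfl⟩
          refine lt_of_le_of_ne hle fun heq => ?_
          have h3 : ι z ∈ (C : Set X) := hr ⟨z, rfl⟩
          rw [← heq] at h3
          obtain ⟨y, hy⟩ := h3
          rw [Scheme.Hom.comp_apply] at hy
          have h4 : ι' y = z := ι.isClosedEmbedding.injective hy
          have h5 : z ∈ Set.range ι' := ⟨y, h4⟩
          rw [hr'] at h5
          exact h5 hz
        obtain ⟨N₂, hN₂⟩ := ih _ hlt Z' (ι' ≫ ι) hcomp subset_rfl
        refine ⟨max N₁ N₂, fun n hn c hc P hP h s => ?_⟩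
        have hn' := max_le_iff.mp hn
        have h1 : P (Spec A) s := hN₁ n hn'.1 c hc _ hP.ringCP (fun T s => h T s) s
        have h2 : P Z' s := hN₂ n hn'.2 c hc P hP h s
        exact hP.glue Z Z' (Spec A) ι' j hZ hι' hj (by rw [hr', compl_compl]) s h2 h1
  exact key ⊤ X (𝟙 X) inferInstance (by simp)

end Pool.Agent.Helper81.CP
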