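import Pool.Agent.Helper81.CP.Good

/-!
# From one equation to systems of equations, slices of bilinear systems
-/

set_option autoImplicit false

open MvPolynomial
open scoped Classical

namespace Pool.Agent.Helper81.CP

variable {Q : ∀ (R : Type) [CommRing R], ℤ → Prop}

/-! ### One more variable for each equation -/

section

variable {σ K : Type} (b : K → MvPolynomial σ ℤ)

/-- the polynomial `∑ z_κ b_κ` over `κ ∈ B` -/
noncomputable def lin (B : Finset K) : MvPolynomial (σ ⊕ K) ℤ :=
  ∑ κ ∈ B, X (Sum.inr κ) * rename Sum.inl (b κ)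

/-- the equations `b_κ = 0`, `κ ∈ C`, and `∑ z_κ b_κ = 0` over `κ ∈ B` -/
noncomputable def mix (C B : Finset K) : Set (MvPolynomial (σ ⊕ K) ℤ) :=
  insert (lin b B) ((fun κ => rename Sum.inl (b κ)) '' (C : Set K))

lemma Pt.mix_iff {C B : Finset K} {A : Type} [CommRing A] {x : σ ⊕ K → A} :
    Pt (mix b C B) x ↔ ∑ κ ∈ B, x (Sum.inr κ) * ev (fun i => x (Sum.inl i)) (b κ) = 0 ∧
      ∀ κ ∈ C, ev (fun i => x (Sum.inl i)) (b κ) = 0 := by
  rw [mix, Pt.insert_iff]
  refine and_congr ?_ ?_
  · simp only [lin, map_sum, map_mul, ev_X, ev_rename]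
  · simp only [Pt, Set.forall_mem_image, ev_rename, Finset.mem_coe]

/-- the value of the linear equation -/
noncomputable def gv {A : Type} [CommRing A] (B : Finset K) (y : σ ⊕ K → A) : A :=
  ∑ κ ∈ B, y (Sum.inr κ) * ev (fun i => y (Sum.inl i)) (b κ)

lemma gv_update {A : Type} [CommRing A] {B : Finset K} {a : K} (hab : a ∉ B) (y : σ ⊕ K → A)
    (t : A) : gv b (insert a B) (Function.update y (Sum.inr a) (y (Sum.inr a) + t)) =
      gv b (insert a B) y + t * ev (fun i => y (Sum.inl i)) (b a) := by
  unfold gv
  rw [Finset.sum_insert hab, Finset.sum_insert hab]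
  have e1 : ∑ κ ∈ B, Function.update y (Sum.inr a) (y (Sum.inr a) + t) (Sum.inr κ) *
      ev (fun i => Function.update y (Sum.inr a) (y (Sum.inr a) + t) (Sum.inl i)) (b κ) =
      ∑ κ ∈ B, y (Sum.inr κ) * ev (fun i => y (Sum.inl i)) (b κ) := by
    refine Finset.sum_congr rfl fun κ hκ => ?_
    have : κ ≠ a := fun h => hab (h ▸ hκ)
    simp [this]
  rw [e1]
  simp
  ring

lemma gv_map {A B' : Type} [CommRing A] [CommRing B'] (φ : A →+* B') (B : Finset K)
    (y : σ ⊕ K → A) : φ (gv b B y) = gv b B (fun i => φ (y i)) := by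
  simp only [gv, map_sum, map_mul, ev_map]

/-- the map to the product with the line -/
noncomputable def fwd (B : Finset K) (a : K) (A : Type) [CommRing A] (x : Option (σ ⊕ K) → A) :
    Option (Option (σ ⊕ K)) → A :=
  fun o => o.elim (gv b (insert a B) (fun i => x (some i))) (fun o' => o'.elim (x none)
    (Function.update (fun i => x (some i)) (Sum.inr a)
      (x (some (Sum.inr a)) + -(x none * gv b (insert a B) (fun i => x (some i))))))

/-- the map from the product with the line -/
noncomputable def bwd (a : K) (A : Type) [CommRing A] (y : Option (Option (σ ⊕ K)) → A) :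
    Option (σ ⊕ K) → A :=
  fun o => o.elim (y (some none))
    (Function.update (fun i => y (some (some i))) (Sum.inr a)
      (y (some (some (Sum.inr a))) + y (some none) * y none))

lemma fwd_map {A B' : Type} [CommRing A] [CommRing B'] (φ : A →+* B') (B : Finset K) (a : K)
    (x : Option (σ ⊕ K) → A) (j : Option (Option (σ ⊕ K))) :
    φ (fwd b B a A x j) = fwd b B a B' (fun i => φ (x i)) j := by
  rcases j with _ | _ | j
  · exact gv_map b φ (insert a B) (fun i => x (some i))
  · rfl
  · simp only [fwd, Option.elim, Function.update_apply]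
    split_ifs
    · rw [map_add, map_neg, map_mul, gv_map]
    · rfl

lemma bwd_map {A B' : Type} [CommRing A] [CommRing B'] (φ : A →+* B') (a : K)
    (y : Option (Option (σ ⊕ K)) → A) (i : Option (σ ⊕ K)) :
    φ (bwd a A y i) = bwd a B' (fun i => φ (y i)) i := by
  rcases i with _ | i
  · rfl
  · simp only [bwd, Option.elim, Function.update_apply]
    split_ifs
    · rw [map_add, map_mul]
    · rfl

lemma pt_fwd {C B : Finset K} {a : K} (hab : a ∉ B) {A : Type} [CommRing A]
    {x : Option (σ ⊕ K) → A} (hx : Pt (dop (rename Sum.inl (b a)) (mix b C ∅)) x) :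
    Pt (lft (dop (rename Sum.inl (b a)) (mix b C (insert a B)))) (fwd b B a A x) := by
  rw [Pt.dop_iff, Pt.mix_iff] at hx
  rw [Pt.lft_iff, Pt.dop_iff, Pt.mix_iff]
  obtain ⟨hx1, _, hx3⟩ := hx
  have hx1' : x none * ev (fun i => x (some (Sum.inl i))) (b a) = 1 := by
    simpa using hx1
  refine ⟨?_, ?_, ?_⟩
  · simpa [fwd] using hx1'
  · have := gv_update b hab (fun i => x (some i))
      (-(x none * gv b (insert a B) (fun i => x (some i))))
    refine Eq.trans this ?_
    linear_combination (-gv b (insert a B) (fun i => x (some i))) * hx1'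
  · intro κ hκ
    have := hx3 κ hκ
    simpa [fwd] using this

lemma pt_bwd {C B : Finset K} {a : K} {A : Type} [CommRing A]
    {y : Option (Option (σ ⊕ K)) → A}
    (hy : Pt (lft (dop (rename Sum.inl (b a)) (mix b C (insert a B)))) y) :
    Pt (dop (rename Sum.inl (b a)) (mix b C ∅)) (bwd a A y) := by
  rw [Pt.lft_iff, Pt.dop_iff, Pt.mix_iff] at hy
  rw [Pt.dop_iff, Pt.mix_iff]
  obtain ⟨hy1, _, hy3⟩ := hy
  refine ⟨?_, by simp, ?_⟩
  · simpa [bwd] using hy1
  · intro κ hκ
    have := hy3 κ hκ
    simpa [bwd] using this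

lemma bwd_fwd {B : Finset K} {a : K} {A : Type} [CommRing A]
    (x : Option (σ ⊕ K) → A) : bwd a A (fwd b B a A x) = x := by
  funext o
  rcases o with _ | i
  · rfl
  · simp only [fwd, bwd, Option.elim, Function.update_idem, Function.update_self]
    rw [Function.update_apply]
    split_ifs with h
    · rw [h]; ring
    · rfl

lemma fwd_bwd {C B : Finset K} {a : K} (hab : a ∉ B) {A : Type} [CommRing A]
    {y : Option (Option (σ ⊕ K)) → A}
    (hy : Pt (lft (dop (rename Sum.inl (b a)) (mix b C (insert a B)))) y) :
    fwd b B a A (bwd a A y) = y := by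
  rw [Pt.lft_iff, Pt.dop_iff, Pt.mix_iff] at hy
  obtain ⟨hy1, hy2, _⟩ := hy
  have hy1' : y (some none) * ev (fun i => y (some (some (Sum.inl i)))) (b a) = 1 := by
    simpa using hy1
  have hy2' : gv b (insert a B) (fun i => y (some (some i))) = 0 := hy2
  have h' : gv b (insert a B) (fun i => bwd a A y (some i)) = y none := by
    have := gv_update b hab (fun i => y (some (some i))) (y (some none) * y none)
    refine Eq.trans this ?_
    rw [hy2']
    linear_combination (y none) * hy1'
  funext o
  rcases o with _ | _ | i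
  · exact h'
  · rfl
  · simp only [fwd, Option.elim]
    rw [h']
    simp only [bwd, Option.elim, Function.update_idem, Function.update_self]
    rw [Function.update_apply]
    split_ifs with h
    · rw [h]; ring
    · rfl

variable (hQ : RingCP Q) [Finite σ] [Finite K]

include hQ

/-- If the equation `∑ z_κ b_κ = 0` has the property for all sets of indices, then the systems
`b_κ = 0` have it. -/
theorem RingCP.good_mix (h : ∀ B : Finset K, Good Q (mix b ∅ B)) (C : Finset K) :
    ∀ B : Finset K, Disjoint C B → Good Q (mix b C B) := by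
  induction C using Finset.induction_on with
  | empty => exact fun B _ => h B
  | insert a C ha ih =>
    -- the system without linear equation
    have free : ∀ (D : Finset K) (A : Type) [CommRing A] (x y : σ ⊕ K → A),
        (∀ i, i ≠ Sum.inr a → y i = x i) → Pt (mix b D ∅) x → Pt (mix b D ∅) y := by
      intro D A _ x y hxy hx
      rw [Pt.mix_iff] at hx ⊢
      refine ⟨by simp, fun κ hκ => ?_⟩
      have h1 : (fun i => y (Sum.inl i)) = fun i => x (Sum.inl i) :=
        funext fun i => hxy (Sum.inl i) (by simp)
      rw [h1]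
      exact hx.2 κ hκ
    have h0 : Good Q (mix b C ∅) := ih ∅ (Finset.disjoint_empty_right _)
    have h1 : Good Q (mix b C {a}) := ih {a} (by simpa using ha)
    have h2 : Good Q (insert (X (Sum.inr a)) (mix b C ∅)) := (hQ.good_free _ _ (free C)).mp h0
    have h3 : Good Q (insert (X (Sum.inr a)) (mix b C {a})) := by
      refine (hQ.good_congr fun A _ x => ?_).mp h2
      rw [Pt.insert_iff, Pt.insert_iff, Pt.mix_iff, Pt.mix_iff]
      simp only [ev_X, Finset.sum_empty, Finset.sum_singleton, true_and]
      constructor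
      · rintro ⟨h, h'⟩
        exact ⟨h, by rw [h, zero_mul], h'⟩
      · rintro ⟨h, _, h'⟩
        exact ⟨h, h'⟩
    have h4 : Good Q (dop (X (Sum.inr a)) (mix b C {a})) := fun s => hQ.opn' (h1 s) (h3 s)
    have h5 : Good Q (dop (X (Sum.inr a)) (mix b (insert a C) ∅)) := by
      refine (hQ.good_congr fun A _ x => ?_).mp h4
      rw [Pt.dop_iff, Pt.dop_iff, Pt.mix_iff, Pt.mix_iff]
      simp only [ev_X, Finset.sum_empty, Finset.sum_singleton, true_and, Finset.mem_insert,
        forall_eq_or_imp]
      constructor
      · rintro ⟨h, h', h''⟩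
        refine ⟨h, ?_, h''⟩
        have := congrArg (fun t => x none * t) h'
        simpa [← mul_assoc, h] using this
      · rintro ⟨h, h', h''⟩
        exact ⟨h, by rw [h', mul_zero], h''⟩
    have h6 : Good Q (mix b (insert a C) ∅) := (hQ.good_free_opn _ _ (free (insert a C))).mpr h5
    -- the general case
    intro B hB
    have hab : a ∉ B := fun h => (Finset.disjoint_left.mp hB (Finset.mem_insert_self a C)) h
    have hCB : Disjoint C (insert a B) := by
      rw [Finset.disjoint_left] at hB ⊢
      intro κ hκ hκ'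
      rcases Finset.mem_insert.mp hκ' with rfl | h'
      · exact ha hκ
      · exact hB (Finset.mem_insert_of_mem hκ) h'
    have h7 : Good Q (mix b C (insert a B)) := ih _ hCB
    let p : MvPolynomial (σ ⊕ K) ℤ := rename Sum.inl (b a)
    have h8 : Good Q (insert p (mix b C ∅)) := by
      refine (hQ.good_congr fun A _ x => ?_).mp h6
      rw [Pt.insert_iff, Pt.mix_iff, Pt.mix_iff]
      simp only [p, ev_rename, Finset.mem_insert, forall_eq_or_imp, Finset.sum_empty, true_and]
    have h9 : Good Q (dop p (mix b C ∅)) := fun s => hQ.opn' (h0 s) (h8 s)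
    have h10 : Good Q (dop p (mix b C (insert a B))) := by
      rw [← hQ.good_line]
      exact fun s => (hQ.qs_iso (E := dop p (mix b C ∅)) (E' := lft (dop p (mix b C (insert a B))))
        (fwd b B a) (bwd a) (fun A B' _ _ φ x _ j => fwd_map b φ B a x j)
        (fun A B' _ _ φ y _ i => bwd_map φ a y i) (fun A _ x hx => pt_fwd b hab hx)
        (fun A _ y hy => pt_bwd b hy) (fun A _ x _ => bwd_fwd b x)
        (fun A _ y hy => fwd_bwd b hab hy) s).mp (h9 s)
    have h11 : Good Q (insert p (mix b C (insert a B))) := fun s => hQ.closed' (h7 s) (h10 s)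
    refine (hQ.good_congr fun A _ x => ?_).mp h11
    rw [Pt.insert_iff, Pt.mix_iff, Pt.mix_iff, Finset.sum_insert hab]
    simp only [p, ev_rename, Finset.mem_insert, forall_eq_or_imp]
    constructor
    · rintro ⟨h, h', h''⟩
      rw [h, mul_zero, zero_add] at h'
      exact ⟨h', h, h''⟩
    · rintro ⟨h', h, h''⟩
      refine ⟨h, ?_, h''⟩
      rw [h, mul_zero, zero_add]
      exact h'

/-- If the equation `∑ z_κ b_κ = 0` has the property for all sets of indices, then the system
of all equations `b_κ = 0` has it. -/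
theorem RingCP.good_range (h : ∀ B : Finset K, Good Q (mix b ∅ B)) : Good Q (Set.range b) := by
  have := Fintype.ofFinite K
  have h1 := hQ.good_mix b h Finset.univ ∅ (Finset.disjoint_empty_right _)
  rw [← hQ.good_sum (τ := K)]
  refine (hQ.good_congr fun A _ x => ?_).mp h1
  rw [Pt.mix_iff]
  simp only [Pt, Set.forall_mem_image, ev_rename, Set.forall_mem_range, Finset.sum_empty,
    true_and, Finset.mem_univ, forall_const]

end

end Pool.Agent.Helper81.CP
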