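import Mathlib

/-!
# Euler characteristics in long exact sequences of vector spaces
-/

set_option autoImplicit false

namespace Pool.Agent.Helper81.CP

universe u

/-- The spaces `V i` are finite dimensional and almost all of them vanish. -/
def FinTot (V : ℤ → ModuleCat.{u} ℚ) : Prop :=
  (∀ i, Module.Finite ℚ (V i)) ∧ {i : ℤ | Nontrivial (V i)}.Finite

/-- The Euler characteristic `∑ (-1)^i dim V i`. -/
noncomputable def euler (V : ℤ → ModuleCat.{u} ℚ) : ℤ :=
  ∑ᶠ i : ℤ, (i.negOnePow : ℤ) * (Module.finrank ℚ (V i) : ℤ)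

/-- A long exact sequence `⋯ → V' i → V i → V'' i → V' (i - 1) → ⋯`. -/
def LongExact (V' V V'' : ℤ → ModuleCat.{u} ℚ) : Prop :=
  ∃ (a : ∀ i, V' i →ₗ[ℚ] V i) (b : ∀ i, V i →ₗ[ℚ] V'' i) (c : ∀ i, V'' (i + 1) →ₗ[ℚ] V' i),
    ∀ i, Function.Exact (a i) (b i) ∧ Function.Exact (b (i + 1)) (c i) ∧
      Function.Exact (c i) (a i)

section

variable {A B C : Type u} [AddCommGroup A] [AddCommGroup B] [AddCommGroup C] [Module ℚ A]
  [Module ℚ B] [Module ℚ C] {f : A →ₗ[ℚ] B} {g : B →ₗ[ℚ] C}

lemma finite_mid (h : Function.Exact f g) (hA : Module.Finite ℚ A) (hC : Module.Finite ℚ C) :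
    Module.Finite ℚ B := by
  have hk : Module.Finite ℚ (LinearMap.ker g) := by
    rw [h.linearMap_ker_eq]
    infer_instance
  have hq : Module.Finite ℚ (B ⧸ LinearMap.ker g) := by
    have : Module.Finite ℚ (LinearMap.range g) := inferInstance
    exact Module.Finite.equiv g.quotKerEquivRange.symm
  exact Module.Finite.of_submodule_quotient (LinearMap.ker g)

lemma subsingleton_mid (h : Function.Exact f g) (hA : Subsingleton A) (hC : Subsingleton C) :
    Subsingleton B := by
  refine ⟨fun x y => ?_⟩
  obtain ⟨a, ha⟩ := (h x).mp (Subsingleton.elim _ _)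
  obtain ⟨a', ha'⟩ := (h y).mp (Subsingleton.elim _ _)
  rw [← ha, ← ha', Subsingleton.elim a a']

lemma nontrivial_mid (h : Function.Exact f g) (hB : Nontrivial B) :
    Nontrivial A ∨ Nontrivial C := by
  by_contra hn
  rw [not_or, not_nontrivial_iff_subsingleton, not_nontrivial_iff_subsingleton] at hn
  exact (not_subsingleton_iff_nontrivial.mpr hB) (subsingleton_mid h hn.1 hn.2)

lemma finrank_mid (h : Function.Exact f g) (hB : Module.Finite ℚ B) :
    Module.finrank ℚ B = Module.finrank ℚ (LinearMap.range f) +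
      Module.finrank ℚ (LinearMap.range g) := by
  rw [← LinearMap.finrank_range_add_finrank_ker g, h.linearMap_ker_eq, add_comm]

end

variable {V' V V'' : ℤ → ModuleCat.{u} ℚ}

lemma LongExact.finTot_mid (h : LongExact V' V V'') (h1 : FinTot V') (h2 : FinTot V'') :
    FinTot V := by
  obtain ⟨a, b, c, hh⟩ := h
  refine ⟨fun i => finite_mid (hh i).1 (h1.1 i) (h2.1 i), ?_⟩
  refine (h1.2.union h2.2).subset fun i hi => ?_
  exact nontrivial_mid (hh i).1 hi

lemma LongExact.finTot_right (h : LongExact V' V V'') (h1 : FinTot V') (h2 : FinTot V) :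
    FinTot V'' := by
  obtain ⟨a, b, c, hh⟩ := h
  have key : ∀ i, Function.Exact (b (i + 1)) (c i) := fun i => (hh i).2.1
  refine ⟨fun i => ?_, ?_⟩
  · have := finite_mid (key (i - 1)) (h2.1 _) (h1.1 _)
    rwa [sub_add_cancel] at this
  · refine (h2.2.union (h1.2.image (fun i => i + 1))).subset fun i hi => ?_
    have hi' : Nontrivial (V'' (i - 1 + 1)) := by
      rw [sub_add_cancel]; exact hi
    rcases nontrivial_mid (key (i - 1)) hi' with h3 | h3
    · left
      rw [sub_add_cancel] at h3
      exact h3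
    · right
      exact ⟨i - 1, h3, sub_add_cancel i 1⟩

lemma LongExact.finTot_left (h : LongExact V' V V'') (h1 : FinTot V) (h2 : FinTot V'') :
    FinTot V' := by
  obtain ⟨a, b, c, hh⟩ := h
  have key : ∀ i, Function.Exact (c i) (a i) := fun i => (hh i).2.2
  refine ⟨fun i => finite_mid (key i) (h2.1 _) (h1.1 _), ?_⟩
  refine (h1.2.union (h2.2.image (fun i => i - 1))).subset fun i hi => ?_
  rcases nontrivial_mid (key i) hi with h3 | h3
  · right
    exact ⟨i + 1, h3, add_sub_cancel_right i 1⟩
  · left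
    exact h3

lemma finrank_range_eq_zero {A B : ModuleCat.{u} ℚ} (f : A →ₗ[ℚ] B)
    (h : ¬ Nontrivial A ∨ ¬ Nontrivial B) : Module.finrank ℚ (LinearMap.range f) = 0 := by
  have : Subsingleton (LinearMap.range f) := by
    rcases h with h | h
    · rw [not_nontrivial_iff_subsingleton] at h
      refine ⟨fun x y => ?_⟩
      obtain ⟨x', hx⟩ := x.2
      obtain ⟨y', hy⟩ := y.2
      apply Subtype.ext
      rw [← hx, ← hy, Subsingleton.elim x' y']
    · rw [not_nontrivial_iff_subsingleton] at h
      refine ⟨fun x y => Subtype.ext (Subsingleton.elim _ _)⟩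
  exact Module.finrank_zero_of_subsingleton

lemma LongExact.euler (h : LongExact V' V V'') (h1 : FinTot V') (h2 : FinTot V) (h3 : FinTot V'') :
    euler V = euler V' + euler V'' := by
  obtain ⟨a, b, c, hh⟩ := h
  set α : ℤ → ℤ := fun i => (i.negOnePow : ℤ) * (Module.finrank ℚ (LinearMap.range (a i)) : ℤ)
    with hα
  set β : ℤ → ℤ := fun i => (i.negOnePow : ℤ) * (Module.finrank ℚ (LinearMap.range (b i)) : ℤ)
    with hβ
  set γ : ℤ → ℤ := fun i => (i.negOnePow : ℤ) * (Module.finrank ℚ (LinearMap.range (c i)) : ℤ)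
    with hγ
  have fα : (Function.support α).Finite := by
    refine h1.2.subset fun i hi => ?_
    by_contra hn
    exact hi (by simp only [hα]; rw [finrank_range_eq_zero (a i) (Or.inl hn)]; simp)
  have fβ : (Function.support β).Finite := by
    refine h2.2.subset fun i hi => ?_
    by_contra hn
    exact hi (by simp only [hβ]; rw [finrank_range_eq_zero (b i) (Or.inl hn)]; simp)
  have fγ : (Function.support γ).Finite := by
    refine h1.2.subset fun i hi => ?_
    by_contra hn
    exact hi (by simp only [hγ]; rw [finrank_range_eq_zero (c i) (Or.inr hn)]; simp)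
  have fγn : (Function.support fun i => - γ i).Finite := by
    refine fγ.subset fun i hi h0 => hi ?_
    show - γ i = 0
    rw [h0, neg_zero]
  have e2 : CP.euler V = ∑ᶠ i, (α i + β i) := by
    unfold CP.euler
    refine finsum_congr fun i => ?_
    rw [finrank_mid (hh i).1 (h2.1 i)]
    simp only [hα, hβ]
    push_cast
    ring
  have e1 : CP.euler V' = ∑ᶠ i, (α i + γ i) := by
    unfold CP.euler
    refine finsum_congr fun i => ?_
    rw [finrank_mid (hh i).2.2 (h1.1 i)]
    simp only [hα, hγ]
    push_cast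
    ring
  have e3 : CP.euler V'' = ∑ᶠ i, (β i + - γ i) - 0 := by
    have s1 : CP.euler V'' = ∑ᶠ i, (β i + - γ (i - 1)) := by
      unfold CP.euler
      refine finsum_congr fun i => ?_
      have key : ∀ i, Function.Exact (b (i + 1)) (c i) := fun i => (hh i).2.1
      have h4 : ∀ i : ℤ, ((i + 1).negOnePow : ℤ) * (Module.finrank ℚ (V'' (i + 1)) : ℤ) =
          β (i + 1) + - γ i := by
        intro i
        rw [finrank_mid (key i) (h3.1 _)]
        simp only [hβ, hγ, Int.negOnePow_succ]
        push_cast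
        ring
      have h5 := h4 (i - 1)
      rwa [sub_add_cancel] at h5
    have fγ' : (Function.support fun i => - γ (i - 1)).Finite := by
      refine (fγ.image (fun i => i + 1)).subset fun i hi => ⟨i - 1, ?_, sub_add_cancel i 1⟩
      intro h0
      exact hi (by simp only []; rw [h0, neg_zero])
    rw [s1, finsum_add_distrib fβ fγ', finsum_add_distrib fβ fγn, sub_zero]
    congr 1
    exact finsum_comp_equiv (f := fun i => - γ i) (Equiv.subRight (1 : ℤ))
  rw [e1, e2, e3, finsum_add_distrib fα fβ, finsum_add_distrib fα fγ,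
    finsum_add_distrib fβ fγn, finsum_neg_distrib]
  ring

end Pool.Agent.Helper81.CP
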