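import Pool.Agent.Helper81.CP.Sys

/-!
# Graded cut-and-paste properties of rings of finite type over `ℤ`
-/

set_option autoImplicit false

open MvPolynomial

namespace Pool.Agent.Helper81.CP

/-- `R` is finitely generated as a ring -/
def FT (R : Type) [CommRing R] : Prop :=
  ∃ (n : ℕ) (φ : MvPolynomial (Fin n) ℤ →+* R), Function.Surjective φ

/-- a graded cut-and-paste property of rings of finite type over `ℤ` -/
structure RingCP (Q : ∀ (R : Type) [CommRing R], ℤ → Prop) : Prop where
  iso : ∀ (R S : Type) [CommRing R] [CommRing S], FT R → (R ≃+* S) → ∀ s : ℤ, Q R s → Q S s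
  bdd : ∀ (R : Type) [CommRing R], FT R → ∃ s₀ : ℤ, ∀ s, s₀ ≤ s → Q R s
  glue : ∀ (R : Type) [CommRing R], FT R → ∀ (f : R) (s : ℤ),
    Q (R ⧸ Ideal.span {f}) s → Q (Localization.Away f) s → Q R s
  opn : ∀ (R : Type) [CommRing R], FT R → ∀ (f : R) (s : ℤ),
    Q R s → Q (R ⧸ Ideal.span {f}) s → Q (Localization.Away f) s
  closed : ∀ (R : Type) [CommRing R], FT R → ∀ (f : R) (s : ℤ),
    Q R s → Q (Localization.Away f) s → Q (R ⧸ Ideal.span {f}) s
  line : ∀ (R : Type) [CommRing R], FT R → ∀ s : ℤ, Q (Polynomial R) (s + 1) ↔ Q R s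

lemma FT.of_surj {R S : Type} [CommRing R] [CommRing S] (h : FT R) (f : R →+* S)
    (hf : Function.Surjective f) : FT S := by
  obtain ⟨n, φ, hφ⟩ := h
  exact ⟨n, f.comp φ, hf.comp hφ⟩

lemma ft_mv (σ : Type) [Finite σ] : FT (MvPolynomial σ ℤ) := by
  obtain ⟨n, ⟨e⟩⟩ := Finite.exists_equiv_fin σ
  refine ⟨n, (renameEquiv ℤ e.symm : MvPolynomial (Fin n) ℤ ≃ₐ[ℤ] MvPolynomial σ ℤ).toRingEquiv.toRingHom,
    (renameEquiv ℤ e.symm).toRingEquiv.surjective⟩

lemma ft_rng {σ : Type} [Finite σ] (E : Set (MvPolynomial σ ℤ)) : FT (Rng σ E) :=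
  (ft_mv σ).of_surj (Ideal.Quotient.mk _) Ideal.Quotient.mk_surjective

lemma Rep.ft {R : Type} [CommRing R] {σ : Type} [Finite σ] {E : Set (MvPolynomial σ ℤ)}
    {u : σ → R} (h : Rep R E u) : FT R := by
  obtain ⟨e⟩ := (rep_rng E).iso' h
  exact (ft_rng E).of_surj e.toRingHom e.surjective

variable {Q : ∀ (R : Type) [CommRing R], ℤ → Prop}

/-- the system `E` has the property in weight `s` -/
def QS (Q : ∀ (R : Type) [CommRing R], ℤ → Prop) {σ : Type} (E : Set (MvPolynomial σ ℤ))
    (s : ℤ) : Prop := Q (Rng σ E) s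

/-- the system `E` has the property in all weights -/
def Good (Q : ∀ (R : Type) [CommRing R], ℤ → Prop) {σ : Type} (E : Set (MvPolynomial σ ℤ)) :
    Prop := ∀ s, QS Q E s

lemma RingCP.rep_iff (hQ : RingCP Q) {R : Type} [CommRing R] {σ : Type} [Finite σ]
    {E : Set (MvPolynomial σ ℤ)} {u : σ → R} (h : Rep R E u) (s : ℤ) : Q R s ↔ QS Q E s := by
  obtain ⟨e⟩ := (rep_rng E).iso' h
  exact ⟨hQ.iso R (Rng σ E) h.ft e.symm s, hQ.iso (Rng σ E) R (ft_rng E) e s⟩

section

variable (hQ : RingCP Q) {σ τ : Type} [Finite σ] [Finite τ]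

include hQ

/-- isomorphic systems -/
lemma RingCP.qs_iso {E : Set (MvPolynomial σ ℤ)} {E' : Set (MvPolynomial τ ℤ)}
    (f : ∀ (A : Type) [CommRing A], (σ → A) → (τ → A))
    (g : ∀ (A : Type) [CommRing A], (τ → A) → (σ → A))
    (nf : ∀ (A B : Type) [CommRing A] [CommRing B] (φ : A →+* B) (x : σ → A), Pt E x →
      ∀ j, φ (f A x j) = f B (fun i => φ (x i)) j)
    (ng : ∀ (A B : Type) [CommRing A] [CommRing B] (φ : A →+* B) (y : τ → A), Pt E' y →
      ∀ i, φ (g A y i) = g B (fun j => φ (y j)) i)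
    (hf : ∀ (A : Type) [CommRing A] (x : σ → A), Pt E x → Pt E' (f A x))
    (hg : ∀ (A : Type) [CommRing A] (y : τ → A), Pt E' y → Pt E (g A y))
    (gf : ∀ (A : Type) [CommRing A] (x : σ → A), Pt E x → g A (f A x) = x)
    (fg : ∀ (A : Type) [CommRing A] (y : τ → A), Pt E' y → f A (g A y) = y) (s : ℤ) :
    QS Q E s ↔ QS Q E' s := by
  obtain ⟨e⟩ := (rep_rng E).iso (rep_rng E') f g nf ng hf hg gf fg
  exact ⟨hQ.iso _ _ (ft_rng E) e s, hQ.iso _ _ (ft_rng E') e.symm s⟩

/-- systems with the same solutions -/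
lemma RingCP.qs_congr {E E' : Set (MvPolynomial σ ℤ)}
    (h : ∀ (A : Type) [CommRing A] (x : σ → A), Pt E x ↔ Pt E' x) (s : ℤ) :
    QS Q E s ↔ QS Q E' s :=
  hQ.qs_iso (fun _ _ x => x) (fun _ _ x => x) (fun _ _ _ _ _ _ _ _ => rfl)
    (fun _ _ _ _ _ _ _ _ => rfl) (fun A _ x hx => (h A x).mp hx) (fun A _ x hx => (h A x).mpr hx)
    (fun _ _ _ _ => rfl) (fun _ _ _ _ => rfl) s

lemma RingCP.good_congr {E E' : Set (MvPolynomial σ ℤ)}
    (h : ∀ (A : Type) [CommRing A] (x : σ → A), Pt E x ↔ Pt E' x) : Good Q E ↔ Good Q E' :=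
  forall_congr' fun s => hQ.qs_congr h s

lemma RingCP.qs_closed (E : Set (MvPolynomial σ ℤ)) (p : MvPolynomial σ ℤ) (s : ℤ) :
    Q (Rng σ E ⧸ Ideal.span {ev (tau E) p}) s ↔ QS Q (insert p E) s :=
  hQ.rep_iff ((rep_rng E).closed p) s

lemma RingCP.qs_opn (E : Set (MvPolynomial σ ℤ)) (p : MvPolynomial σ ℤ) (s : ℤ) :
    Q (Localization.Away (ev (tau E) p)) s ↔ QS Q (dop p E) s :=
  hQ.rep_iff ((rep_rng E).dop p) s

lemma RingCP.qs_line (E : Set (MvPolynomial σ ℤ)) (s : ℤ) :
    QS Q (lft E) (s + 1) ↔ QS Q E s :=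
  (hQ.rep_iff (rep_rng E).line (s + 1)).symm.trans (hQ.line _ (ft_rng E) s)

lemma RingCP.glue' {E : Set (MvPolynomial σ ℤ)} {p : MvPolynomial σ ℤ} {s : ℤ}
    (h1 : QS Q (insert p E) s) (h2 : QS Q (dop p E) s) : QS Q E s :=
  hQ.glue _ (ft_rng E) (ev (tau E) p) s ((hQ.qs_closed E p s).mpr h1) ((hQ.qs_opn E p s).mpr h2)

lemma RingCP.opn' {E : Set (MvPolynomial σ ℤ)} {p : MvPolynomial σ ℤ} {s : ℤ}
    (h1 : QS Q E s) (h2 : QS Q (insert p E) s) : QS Q (dop p E) s :=
  (hQ.qs_opn E p s).mp
    (hQ.opn _ (ft_rng E) (ev (tau E) p) s h1 ((hQ.qs_closed E p s).mpr h2))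

lemma RingCP.closed' {E : Set (MvPolynomial σ ℤ)} {p : MvPolynomial σ ℤ} {s : ℤ}
    (h1 : QS Q E s) (h2 : QS Q (dop p E) s) : QS Q (insert p E) s :=
  (hQ.qs_closed E p s).mp
    (hQ.closed _ (ft_rng E) (ev (tau E) p) s h1 ((hQ.qs_opn E p s).mpr h2))

lemma RingCP.good_line (E : Set (MvPolynomial σ ℤ)) : Good Q (lft E) ↔ Good Q E := by
  constructor
  · intro h s
    exact (hQ.qs_line E s).mp (h (s + 1))
  · intro h s
    have := (hQ.qs_line E (s - 1)).mpr (h (s - 1))
    rwa [sub_add_cancel] at this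

open scoped Classical in
/-- a free coordinate -/
lemma RingCP.qs_free (E : Set (MvPolynomial σ ℤ)) (a : σ)
    (hfree : ∀ (A : Type) [CommRing A] (x y : σ → A), (∀ i, i ≠ a → y i = x i) → Pt E x → Pt E y)
    (s : ℤ) : QS Q E (s + 1) ↔ QS Q (insert (X a) E) s := by
  rw [← hQ.qs_line (insert (X a) E) s]
  refine hQ.qs_iso
    (fun A _ x => fun o => o.elim (x a) (Function.update x a 0))
    (fun A _ y => Function.update (fun i => y (some i)) a (y none)) ?_ ?_ ?_ ?_ ?_ ?_ (s + 1)
  · intro A B _ _ φ x _ j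
    rcases j with _ | j
    · rfl
    · simp only [Option.elim, Function.update_apply]
      split_ifs <;> simp
  · intro A B _ _ φ y _ i
    simp only [Function.update_apply]
    split_ifs <;> rfl
  · intro A _ x hx
    rw [Pt.lft_iff, Pt.insert_iff]
    refine ⟨by simp, hfree A x _ (fun i hi => ?_) hx⟩
    simp [hi]
  · intro A _ y hy
    rw [Pt.lft_iff, Pt.insert_iff] at hy
    exact hfree A _ _ (fun i hi => by simp [hi]) hy.2
  · intro A _ x _
    simp
  · intro A _ y hy
    rw [Pt.lft_iff, Pt.insert_iff] at hy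
    have h0 : y (some a) = 0 := by simpa using hy.1
    funext o
    rcases o with _ | i
    · simp
    · simp only [Option.elim, Function.update_idem]
      rw [Function.update_apply]
      split_ifs with h
      · rw [h, h0]
      · rfl

open scoped Classical in
lemma RingCP.good_free (E : Set (MvPolynomial σ ℤ)) (a : σ)
    (hfree : ∀ (A : Type) [CommRing A] (x y : σ → A), (∀ i, i ≠ a → y i = x i) →
      Pt E x → Pt E y) : Good Q E ↔ Good Q (insert (X a) E) := by
  constructor
  · intro h s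
    exact (hQ.qs_free E a hfree s).mp (h (s + 1))
  · intro h s
    have := (hQ.qs_free E a hfree (s - 1)).mpr (h (s - 1))
    rwa [sub_add_cancel] at this

open scoped Classical in
/-- descent from the multiplicative group -/
lemma RingCP.good_free_opn (E : Set (MvPolynomial σ ℤ)) (a : σ)
    (hfree : ∀ (A : Type) [CommRing A] (x y : σ → A), (∀ i, i ≠ a → y i = x i) →
      Pt E x → Pt E y) : Good Q E ↔ Good Q (dop (X a) E) := by
  constructor
  · intro h s
    exact hQ.opn' (h s) ((hQ.good_free E a hfree).mp h s)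
  · intro h
    rw [hQ.good_free E a hfree]
    obtain ⟨s₀, hs₀⟩ := hQ.bdd _ (ft_rng (insert (X a) E))
    have key : ∀ n : ℕ, ∀ s : ℤ, s₀ - n ≤ s → QS Q (insert (X a) E) s := by
      intro n
      induction n with
      | zero =>
        intro s hs
        exact hs₀ s (by simpa using hs)
      | succ n ih =>
        intro s hs
        have h1 : QS Q (insert (X a) E) (s + 1) := ih (s + 1) (by push_cast at hs; linarith)
        have h2 : QS Q E (s + 1) := hQ.glue' h1 (h (s + 1))
        exact (hQ.qs_free E a hfree s).mp h2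
    intro s
    exact key (s₀ - s).toNat s (by have := Int.self_le_toNat (s₀ - s); linarith)

/-- scaling some coordinates -/
noncomputable def scl {σ : Type} (W : Set σ) {A : Type} [CommRing A] (c : A) (x : σ → A) :
    σ → A :=
  open scoped Classical in fun i => if i ∈ W then c * x i else x i

omit hQ [Finite σ] in
lemma scl_scl (W : Set σ) {A : Type} [CommRing A] (c d : A) (x : σ → A) (h : c * d = 1) :
    scl W c (scl W d x) = x := by
  classical
  funext i
  unfold scl
  split_ifs
  · rw [← mul_assoc, h, one_mul]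
  · rfl

omit hQ [Finite σ] in
lemma scl_map (W : Set σ) {A B : Type} [CommRing A] [CommRing B] (φ : A →+* B) (c : A)
    (x : σ → A) (i : σ) : φ (scl W c x i) = scl W (φ c) (fun i => φ (x i)) i := by
  classical
  unfold scl
  split_ifs <;> simp

/-- the open set where a function of weight one is invertible is the product of the
multiplicative group and the subscheme where this function is one -/
lemma RingCP.good_scale (E : Set (MvPolynomial σ ℤ)) (W : Set σ) (p : MvPolynomial σ ℤ)
    (hE : ∀ (A : Type) [CommRing A] (x : σ → A) (c : A), Pt E x → Pt E (scl W c x))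
    (hp : ∀ (A : Type) [CommRing A] (x : σ → A) (c : A), ev (scl W c x) p = c * ev x p) :
    Good Q (dop p E) ↔ Good Q (insert (p - 1) E) := by
  rw [← hQ.good_line (insert (p - 1) E),
    hQ.good_free_opn (lft (insert (p - 1) E)) none (by
      intro A _ x y hxy hx
      rw [Pt.lft_iff] at hx ⊢
      have h1 : (fun i => y (some i)) = fun i => x (some i) :=
        funext fun i => hxy (some i) (by simp)
      rw [h1]
      exact hx)]
  refine forall_congr' fun s => ?_
  refine hQ.qs_iso
    (fun A _ x => fun o => o.elim (x none) (fun o' => o'.elim (ev (fun i => x (some i)) p)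
      (scl W (x none) (fun i => x (some i)))))
    (fun A _ z => fun o => o.elim (z none) (scl W (z (some none)) (fun i => z (some (some i)))))
    ?_ ?_ ?_ ?_ ?_ ?_ s
  · intro A B _ _ φ x _ j
    rcases j with _ | _ | j
    · rfl
    · exact ev_map φ _ p
    · exact scl_map W φ (x none) (fun i => x (some i)) j
  · intro A B _ _ φ z _ i
    rcases i with _ | i
    · rfl
    · exact scl_map W φ (z (some none)) (fun i => z (some (some i))) i
  · intro A _ x hx
    rw [Pt.dop_iff] at hx
    rw [Pt.dop_iff, Pt.lft_iff, Pt.insert_iff]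
    refine ⟨?_, ?_, ?_⟩
    · simpa using hx.1
    · show ev (scl W (x none) (fun i => x (some i))) (p - 1) = 0
      rw [map_sub, map_one, hp, hx.1, sub_self]
    · exact hE A _ _ hx.2
  · intro A _ z hz
    rw [Pt.dop_iff, Pt.lft_iff, Pt.insert_iff] at hz
    obtain ⟨h1, h2, h3⟩ := hz
    rw [Pt.dop_iff]
    refine ⟨?_, hE A _ _ h3⟩
    have h1' : z none * z (some none) = 1 := by simpa using h1
    have h2' : ev (fun i => z (some (some i))) p = 1 := by
      rw [map_sub, map_one] at h2
      exact sub_eq_zero.mp h2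
    show z none * ev (scl W (z (some none)) (fun i => z (some (some i)))) p = 1
    rw [hp, h2', mul_one, h1']
  · intro A _ x hx
    rw [Pt.dop_iff] at hx
    funext o
    rcases o with _ | i
    · rfl
    · show scl W (ev (fun i => x (some i)) p) (scl W (x none) (fun i => x (some i))) i = x (some i)
      rw [scl_scl W _ _ _ ((mul_comm _ _).trans hx.1)]
  · intro A _ z hz
    rw [Pt.dop_iff, Pt.lft_iff, Pt.insert_iff] at hz
    obtain ⟨h1, h2, h3⟩ := hz
    have h1' : z none * z (some none) = 1 := by simpa using h1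
    have h2' : ev (fun i => z (some (some i))) p = 1 := by
      rw [map_sub, map_one] at h2
      exact sub_eq_zero.mp h2
    funext o
    rcases o with _ | _ | i
    · rfl
    · show ev (scl W (z (some none)) (fun i => z (some (some i)))) p = z (some none)
      rw [hp, h2', mul_one]
    · show scl W (z none) (scl W (z (some none)) (fun i => z (some (some i)))) i = z (some (some i))
      rw [scl_scl W _ _ _ h1']

/-- renaming along an equivalence -/
lemma RingCP.good_equiv (e : σ ≃ τ) (E : Set (MvPolynomial σ ℤ)) :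
    Good Q (rename e '' E) ↔ Good Q E := by
  refine forall_congr' fun s => ?_
  have hpt : ∀ (A : Type) [CommRing A] (y : τ → A), Pt (rename e '' E) y ↔
      Pt E (fun i => y (e i)) := by
    intro A _ y
    simp only [Pt, Set.forall_mem_image, ev_rename]
  refine hQ.qs_iso (fun A _ y => fun i => y (e i)) (fun A _ x => fun j => x (e.symm j))
    (fun _ _ _ _ _ _ _ _ => rfl) (fun _ _ _ _ _ _ _ _ => rfl) ?_ ?_ ?_ ?_ s
  · intro A _ y hy
    exact (hpt A y).mp hy
  · intro A _ x hx
    rw [hpt]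
    simpa using hx
  · intro A _ y _
    simp
  · intro A _ x _
    simp

omit [Finite τ] in
/-- adding free variables -/
lemma RingCP.good_sum [hτ : Finite τ] (E : Set (MvPolynomial σ ℤ)) :
    Good Q (rename (Sum.inl : σ → σ ⊕ τ) '' E) ↔ Good Q E := by
  refine Finite.induction_empty_option
    (P := fun τ => Finite τ → (Good Q (rename (Sum.inl : σ → σ ⊕ τ) '' E) ↔ Good Q E))
    ?_ ?_ ?_ τ hτ
  · intro α β e ih hβ
    have hα : Finite α := Finite.of_equiv _ e.symm
    rw [← ih hα, ← hQ.good_equiv (Equiv.sumCongr (Equiv.refl σ) e)]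
    refine hQ.good_congr fun A _ x => ?_
    simp only [Pt, Set.forall_mem_image, ev_rename]
    rfl
  · intro _
    rw [← hQ.good_equiv (Equiv.sumEmpty σ PEmpty).symm E]
    refine hQ.good_congr fun A _ x => ?_
    simp only [Pt, Set.forall_mem_image, ev_rename]
    rfl
  · intro α _ ih _
    have hα : Finite α := inferInstance
    rw [← ih hα, ← hQ.good_line (σ := σ ⊕ α)]
    let e : Option (σ ⊕ α) ≃ σ ⊕ Option α :=
      { toFun := fun o => o.elim (Sum.inr none) (Sum.elim Sum.inl (fun a => Sum.inr (some a)))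
        invFun := Sum.elim (fun i => some (Sum.inl i)) (fun o => o.elim none (fun a => some (Sum.inr a)))
        left_inv := by rintro (_ | _ | _) <;> rfl
        right_inv := by rintro (_ | _ | _) <;> rfl }
    rw [← hQ.good_equiv e (lft _)]
    refine hQ.good_congr fun A _ x => ?_
    simp only [Pt, lft, Set.forall_mem_image, ev_rename]
    rfl

/-- adding free variables -/
lemma RingCP.good_emb (k : σ → τ) (hk : Function.Injective k) (E : Set (MvPolynomial σ ℤ)) :
    Good Q (rename k '' E) ↔ Good Q E := by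
  classical
  let ρ : Type := {j : τ // j ∉ Set.range k}
  let e : σ ⊕ ρ ≃ τ :=
    (Equiv.sumCongr (Equiv.ofInjective k hk) (Equiv.refl ρ)).trans (Equiv.Set.sumCompl (Set.range k))
  rw [← hQ.good_sum (τ := ρ) E, ← hQ.good_equiv e]
  refine hQ.good_congr fun A _ x => ?_
  simp only [Pt, Set.forall_mem_image, ev_rename]
  rfl

end

end Pool.Agent.Helper81.CP
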