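import Pool.Agent.Helper81.CP.Zet

/-!
# Continuation to half planes as a graded cut-and-paste property
-/

set_option autoImplicit false

open AlgebraicGeometry CategoryTheory
open Pool.Agent.Helper29.Zeta

namespace Pool.Agent.Helper81.CP

/-- the half plane `t < re z` -/
def HP (t : ℝ) : Set ℂ := {z : ℂ | t < z.re}

lemma isOpen_HP (t : ℝ) : IsOpen (HP t) := isOpen_lt continuous_const Complex.continuous_re

lemma isPreconnected_HP (t : ℝ) : IsPreconnected (HP t) :=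
  (convex_halfSpace_re_gt t).isPreconnected

/-- identity theorem -/
lemma eventuallyEq_of {t : ℝ} {F G : ℂ → ℂ} (hF : MeromorphicOn F (HP t))
    (hG : MeromorphicOn G (HP t)) {σ : ℝ} (h : ∀ z : ℂ, σ < z.re → F z = G z) {z : ℂ}
    (hz : z ∈ HP t) : F =ᶠ[nhdsWithin z {z}ᶜ] G := by
  have hD : MeromorphicOn (F - G) (HP t) := fun z hz => (hF z hz).sub (hG z hz)
  have hmem : ((max σ t + 1 : ℝ) : ℂ) ∈ HP t := by
    show t < ((max σ t + 1 : ℝ) : ℂ).re
    rw [Complex.ofReal_re]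
    linarith [le_max_right σ t]
  have hp : meromorphicOrderAt (F - G) ((max σ t + 1 : ℝ) : ℂ) = ⊤ := by
    rw [meromorphicOrderAt_eq_top_iff]
    have hmem' : ((max σ t + 1 : ℝ) : ℂ) ∈ HP σ := by
      show σ < ((max σ t + 1 : ℝ) : ℂ).re
      rw [Complex.ofReal_re]
      linarith [le_max_left σ t]
    refine Filter.Eventually.filter_mono nhdsWithin_le_nhds ?_
    filter_upwards [(isOpen_HP σ).mem_nhds hmem'] with z hz
    rw [Pi.sub_apply, h z hz, sub_self]
  have hs : meromorphicOrderAt (F - G) z = ⊤ := by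
    by_contra hne
    exact hD.meromorphicOrderAt_ne_top_of_isPreconnected (isPreconnected_HP t) hz hmem hne hp
  rw [meromorphicOrderAt_eq_top_iff] at hs
  filter_upwards [hs] with w hw
  exact sub_eq_zero.mp hw

/-- `F` continues the zeta function of `X` to the half plane `s - 1 < re z` -/
def ContOn (X : Scheme.{0}) (s : ℤ) (F : ℂ → ℂ) : Prop :=
  MeromorphicOn F (HP (s - 1)) ∧ ∃ σ : ℝ, ∀ z : ℂ, σ < z.re → F z = zetaProd X z

lemma ContOn.eventuallyEq {X : Scheme.{0}} {s : ℤ} {F G : ℂ → ℂ} (hF : ContOn X s F)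
    (hG : ContOn X s G) {z : ℂ} (hz : z ∈ HP (s - 1)) : F =ᶠ[nhdsWithin z {z}ᶜ] G := by
  obtain ⟨hF1, σ, hF2⟩ := hF
  obtain ⟨hG1, σ', hG2⟩ := hG
  refine eventuallyEq_of hF1 hG1 (σ := max σ σ') (fun z hz => ?_) hz
  rw [hF2 z (max_lt_iff.mp hz).1, hG2 z (max_lt_iff.mp hz).2]

lemma self_mem_HP (s : ℤ) : (s : ℂ) ∈ HP (s - 1) := by
  show (s : ℝ) - 1 < (s : ℂ).re
  rw [Complex.intCast_re]
  linarith

lemma ContOn.unique {X : Scheme.{0}} {s : ℤ} {F G : ℂ → ℂ} (hF : ContOn X s F)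
    (hG : ContOn X s G) : meromorphicOrderAt F (s : ℂ) = meromorphicOrderAt G (s : ℂ) :=
  meromorphicOrderAt_congr (hF.eventuallyEq hG (self_mem_HP s))

section

variable {X Z U : Scheme.{0}} (hX : IsFT X) (ι : Z ⟶ X) (j : U ⟶ X)
    (hι : IsClosedImmersion ι) (hj : IsOpenImmersion j) (h : Set.range j = (Set.range ι)ᶜ)

include hX hι hj h

lemma ContOn.mul {s : ℤ} {F G : ℂ → ℂ} (hF : ContOn Z s F) (hG : ContOn U s G) :
    ContOn X s (F * G) := by
  obtain ⟨hF1, σ, hF2⟩ := hF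
  obtain ⟨hG1, σ', hG2⟩ := hG
  obtain ⟨x, hx⟩ := zetaProd_mul hX ι j hι hj h
  refine ⟨fun z hz => (hF1 z hz).mul (hG1 z hz), max x (max σ σ'), fun z hz => ?_⟩
  have hz1 := (max_lt_iff.mp hz).1
  have hz2 := max_lt_iff.mp (max_lt_iff.mp hz).2
  rw [Pi.mul_apply, hF2 z hz2.1, hG2 z hz2.2, hx z hz1]

lemma ContOn.right {s : ℤ} {E F : ℂ → ℂ} (hE : ContOn X s E) (hF : ContOn Z s F) :
    ContOn U s (E * F⁻¹) := by
  obtain ⟨hE1, σ, hE2⟩ := hE
  obtain ⟨hF1, σ', hF2⟩ := hF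
  obtain ⟨x, hx⟩ := zetaProd_mul hX ι j hι hj h
  obtain ⟨y, hy⟩ := zetaProd_ne (hX.of_isClosedImmersion ι hι)
  refine ⟨fun z hz => (hE1 z hz).mul (hF1 z hz).inv, max (max x y) (max σ σ'), fun z hz => ?_⟩
  have hz1 := max_lt_iff.mp (max_lt_iff.mp hz).1
  have hz2 := max_lt_iff.mp (max_lt_iff.mp hz).2
  rw [Pi.mul_apply, Pi.inv_apply, hE2 z hz2.1, hF2 z hz2.2, hx z hz1.1]
  have h0 := (hy z hz1.2).1
  field_simp

lemma ContOn.left {s : ℤ} {E G : ℂ → ℂ} (hE : ContOn X s E) (hG : ContOn U s G) :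
    ContOn Z s (E * G⁻¹) := by
  obtain ⟨hE1, σ, hE2⟩ := hE
  obtain ⟨hG1, σ', hG2⟩ := hG
  obtain ⟨x, hx⟩ := zetaProd_mul hX ι j hι hj h
  obtain ⟨y, hy⟩ := zetaProd_ne (hX.of_isOpenImmersion j hj)
  refine ⟨fun z hz => (hE1 z hz).mul (hG1 z hz).inv, max (max x y) (max σ σ'), fun z hz => ?_⟩
  have hz1 := max_lt_iff.mp (max_lt_iff.mp hz).1
  have hz2 := max_lt_iff.mp (max_lt_iff.mp hz).2
  rw [Pi.mul_apply, Pi.inv_apply, hE2 z hz2.1, hG2 z hz2.2, hx z hz1.1]
  have h0 := (hy z hz1.2).1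
  field_simp

end

lemma contOn_line (A : Type) [CommRing A] (hA : FT A) (s : ℤ) (F : ℂ → ℂ) :
    ContOn (Spec (CommRingCat.of (Polynomial A))) (s + 1) F ↔
      ContOn (Spec (CommRingCat.of A)) s (fun z => F (z + 1)) := by
  obtain ⟨x, hx⟩ := zetaProd_line A hA
  constructor
  · rintro ⟨hF, σ, hσ⟩
    refine ⟨fun z hz => ?_, max σ x, fun z hz => ?_⟩
    · have h1 : z + 1 ∈ HP (((s + 1 : ℤ) : ℝ) - 1) := by
        show ((s + 1 : ℤ) : ℝ) - 1 < (z + 1).re
        have h2 : (s : ℝ) - 1 < z.re := hz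
        simp only [Complex.add_re, Complex.one_re]
        push_cast
        linarith
      exact MeromorphicAt.comp_analyticAt (f := F) (g := fun s : ℂ => s + 1) (hF _ h1)
        (by fun_prop)
    · have hz1 := max_lt_iff.mp hz
      have e : (z + 1).re = z.re + 1 := by simp
      show F (z + 1) = _
      rw [hσ (z + 1) (by rw [e]; linarith), hx (z + 1) (by rw [e]; linarith), add_sub_cancel_right]
  · rintro ⟨hF, σ, hσ⟩
    refine ⟨fun z hz => ?_, max (σ + 1) x, fun z hz => ?_⟩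
    · have h1 : z - 1 ∈ HP ((s : ℝ) - 1) := by
        show (s : ℝ) - 1 < (z - 1).re
        have h2 : ((s + 1 : ℤ) : ℝ) - 1 < z.re := hz
        push_cast at h2
        simp only [Complex.sub_re, Complex.one_re]
        linarith
      have h2 : MeromorphicAt ((fun z => F (z + 1)) ∘ fun w : ℂ => w - 1) z :=
        MeromorphicAt.comp_analyticAt (f := fun z => F (z + 1)) (g := fun w : ℂ => w - 1) (hF _ h1)
          (by fun_prop)
      have h3 : ((fun z => F (z + 1)) ∘ fun w : ℂ => w - 1) = F := by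
        funext w
        simp
      rwa [h3] at h2
    · have hz1 := max_lt_iff.mp hz
      have e : (z - 1).re = z.re - 1 := by simp
      rw [hx z hz1.2, ← hσ (z - 1) (by rw [e]; linarith)]
      show F z = F (z - 1 + 1)
      rw [sub_add_cancel]

/-- far to the right -/
lemma contOn_far {X : Scheme.{0}} (hX : IsFT X) :
    ∃ s₀ : ℤ, ∀ s, s₀ ≤ s → ContOn X s (zetaProd X) ∧
      meromorphicOrderAt (zetaProd X) (s : ℂ) = 0 := by
  obtain ⟨σ, hσ⟩ := zetaProd_ne hX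
  refine ⟨⌈σ⌉ + 1, fun s hs => ?_⟩
  have h1 : (σ : ℝ) ≤ ⌈σ⌉ := Int.le_ceil σ
  have h2 : ((⌈σ⌉ + 1 : ℤ) : ℝ) ≤ s := by exact_mod_cast hs
  push_cast at h2
  have h3 : ∀ z ∈ HP ((s : ℝ) - 1), σ < z.re := by
    intro z hz
    have : (s : ℝ) - 1 < z.re := hz
    linarith
  refine ⟨⟨fun z hz => (hσ z (h3 z hz)).2.meromorphicAt, σ, fun z _ => rfl⟩, ?_⟩
  have h4 := hσ (s : ℂ) (h3 _ (self_mem_HP s))
  rw [h4.2.meromorphicOrderAt_eq, h4.2.analyticOrderAt_eq_zero.mpr h4.1]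
  rfl

lemma contOn_empty {X : Scheme.{0}} (hX : IsEmpty X) (s : ℤ) :
    ContOn X s (fun _ => 1) ∧ meromorphicOrderAt (fun _ : ℂ => (1 : ℂ)) (s : ℂ) = 0 := by
  refine ⟨⟨fun z _ => MeromorphicAt.const 1 z, 0, fun z _ => ?_⟩, ?_⟩
  · unfold zetaProd
    have : IsEmpty {x : X // IsClosed ({x} : Set X)} := ⟨fun x => hX.false x.1⟩
    rw [tprod_empty]
  · classical
    rw [meromorphicOrderAt_const, if_neg one_ne_zero]

/-- continuation to all half planes gives continuation to the plane -/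
theorem exists_isCont {X : Scheme.{0}} (hX : IsFT X) (h : ∀ s : ℤ, ∃ F, ContOn X s F) :
    ∃ F, IsCont X F := by
  choose F hF using h
  obtain ⟨σ, hσ⟩ := zetaProd_ne hX
  classical
  -- all continuations agree with the Euler product
  have hmer : MeromorphicOn (zetaProd X) (HP σ) := fun z hz => (hσ z hz).2.meromorphicAt
  have hle1 : ∀ {a b : ℝ} {w : ℂ}, w ∈ HP (max a b) → w ∈ HP a := fun {a b w} hw =>
    lt_of_le_of_lt (le_max_left a b) hw
  have hle2 : ∀ {a b : ℝ} {w : ℂ}, w ∈ HP (max a b) → w ∈ HP b := fun {a b w} hw =>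
    lt_of_le_of_lt (le_max_right a b) hw
  have key : ∀ (s : ℤ) (z : ℂ), z ∈ HP (s - 1) → z ∈ HP σ →
      F s =ᶠ[nhdsWithin z {z}ᶜ] zetaProd X := by
    intro s z hz hz'
    obtain ⟨hF1, τ, hF2⟩ := hF s
    have h1 : MeromorphicOn (F s) (HP (max ((s : ℝ) - 1) σ)) := fun w hw =>
      hF1 w (hle1 hw)
    have h2 : MeromorphicOn (zetaProd X) (HP (max ((s : ℝ) - 1) σ)) := fun w hw =>
      hmer w (hle2 hw)
    exact eventuallyEq_of h1 h2 hF2 (show max ((s : ℝ) - 1) σ < z.re from max_lt hz hz')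
  have key2 : ∀ (s t : ℤ) (z : ℂ), z ∈ HP (s - 1) → z ∈ HP (t - 1) →
      F s =ᶠ[nhdsWithin z {z}ᶜ] F t := by
    intro s t z hz hz'
    obtain ⟨hF1, τ, hF2⟩ := hF s
    obtain ⟨hG1, τ', hG2⟩ := hF t
    have h1 : MeromorphicOn (F s) (HP (max ((s : ℝ) - 1) (t - 1))) := fun w hw =>
      hF1 w (hle1 hw)
    have h2 : MeromorphicOn (F t) (HP (max ((s : ℝ) - 1) (t - 1))) := fun w hw =>
      hG1 w (hle2 hw)
    refine eventuallyEq_of h1 h2 (σ := max τ τ') (fun w hw => ?_)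
      (show max ((s : ℝ) - 1) (t - 1) < z.re from max_lt hz hz')
    rw [hF2 w (max_lt_iff.mp hw).1, hG2 w (max_lt_iff.mp hw).2]
  let E : ℂ → ℂ := fun z => if σ + 1 < z.re then zetaProd X z else F ⌊z.re⌋ z
  have hE : ∀ z : ℂ, E =ᶠ[nhdsWithin z {z}ᶜ] F (⌊z.re⌋) := by
    intro z
    set m : ℤ := ⌊z.re⌋ with hm
    have hz1 : (m : ℝ) ≤ z.re := Int.floor_le z.re
    have hz2 : z.re < m + 1 := Int.lt_floor_add_one z.re
    -- the two possible values of the floor near `z`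
    have hopen1 : ∀ᶠ w in nhdsWithin z {z}ᶜ, (m : ℝ) - 1 < w.re := by
      refine Filter.Eventually.filter_mono nhdsWithin_le_nhds ?_
      exact (isOpen_HP ((m : ℝ) - 1)).mem_nhds (show (m : ℝ) - 1 < z.re by linarith)
    have hopen2 : ∀ᶠ w in nhdsWithin z {z}ᶜ, w.re < (m : ℝ) + 1 := by
      refine Filter.Eventually.filter_mono nhdsWithin_le_nhds ?_
      exact (isOpen_lt Complex.continuous_re continuous_const).mem_nhds hz2
    have e1 : F (m - 1) =ᶠ[nhdsWithin z {z}ᶜ] F m := by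
      refine key2 (m - 1) m z ?_ ?_
      · show ((m - 1 : ℤ) : ℝ) - 1 < z.re
        push_cast; linarith
      · show (m : ℝ) - 1 < z.re
        linarith
    have e2 : ∀ᶠ w in nhdsWithin z {z}ᶜ, σ + 1 < w.re → zetaProd X w = F m w := by
      by_cases hσz : σ < z.re
      · have := key m z (show (m : ℝ) - 1 < z.re by linarith) hσz
        filter_upwards [this] with w hw _
        exact hw.symm
      · have h1 : ∀ᶠ w in nhdsWithin z {z}ᶜ, w.re < σ + 1 := by
          refine Filter.Eventually.filter_mono nhdsWithin_le_nhds ?_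
          exact (isOpen_lt Complex.continuous_re continuous_const).mem_nhds
            (show z.re < σ + 1 by linarith)
        filter_upwards [h1] with w hw hw'
        linarith
    filter_upwards [hopen1, hopen2, e1, e2] with w hw1 hw2 hw3 hw4
    show (if σ + 1 < w.re then zetaProd X w else F ⌊w.re⌋ w) = F m w
    split_ifs with h1
    · exact hw4 h1
    · have h3 : ⌊w.re⌋ = m ∨ ⌊w.re⌋ = m - 1 := by
        have h4 : ⌊w.re⌋ ≤ m := by
          have : ⌊w.re⌋ < m + 1 := Int.floor_lt.mpr (by push_cast; exact hw2)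
          omega
        have h5 : m - 1 ≤ ⌊w.re⌋ := by
          refine Int.le_floor.mpr ?_
          push_cast
          exact hw1.le
        omega
      rcases h3 with h3 | h3
      · rw [h3]
      · rw [h3]; exact hw3
  refine ⟨E, fun z _ => ?_, σ + 1, fun z hz => ?_⟩
  · have hz1 : ((⌊z.re⌋ : ℤ) : ℝ) ≤ z.re := Int.floor_le z.re
    refine ((hF ⌊z.re⌋).1 z ?_).congr (hE z).symm
    show ((⌊z.re⌋ : ℤ) : ℝ) - 1 < z.re
    linarith
  · show (if σ + 1 < z.re then zetaProd X z else F ⌊z.re⌋ z) = _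
    rw [if_pos hz]

end Pool.Agent.Helper81.CP
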