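import Pool.Agent.Helper81.CP.Slice

/-!
# Every ring of finite type over `ℤ` is the ring of a slice of a bilinear system
-/

set_option autoImplicit false

open MvPolynomial
open scoped Classical

namespace Pool.Agent.Helper81.CP

/-- `v` respects all sums, products and the unit inside `S` -/
structure PH {A B : Type} [CommRing A] [CommRing B] (S : Finset A) (v : A → B) : Prop where
  one : (1 : A) ∈ S → v 1 = 1
  add : ∀ a b, a ∈ S → b ∈ S → a + b ∈ S → v (a + b) = v a + v b
  mul : ∀ a b, a ∈ S → b ∈ S → a * b ∈ S → v (a * b) = v a * v b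

lemma PH.mono {A B : Type} [CommRing A] [CommRing B] {S T : Finset A} {v : A → B}
    (h : PH T v) (hST : S ⊆ T) : PH S v :=
  ⟨fun h1 => h.one (hST h1), fun a b ha hb hab => h.add a b (hST ha) (hST hb) (hST hab),
    fun a b ha hb hab => h.mul a b (hST ha) (hST hb) (hST hab)⟩

lemma PH.zero {A B : Type} [CommRing A] [CommRing B] {S : Finset A} {v : A → B}
    (h : PH S v) (h0 : (0 : A) ∈ S) : v 0 = 0 := by
  have := h.add 0 0 h0 h0 (by simpa using h0)
  rw [add_zero] at this
  simpa using this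

section

variable {A : Type} [CommRing A] {n : ℕ} (φ : MvPolynomial (Fin n) ℤ →+* A)

/-- the value at `φ p` is determined inside `S` -/
def Cmp (S : Finset A) (p : MvPolynomial (Fin n) ℤ) : Prop :=
  ∀ (B : Type) [CommRing B] (v : A → B), PH S v → v (φ p) = ev (fun i => v (φ (X i))) p

/-- all elements of `S` are determined -/
def Cpl (S : Finset A) : Prop := ∀ a ∈ S, ∃ p, φ p = a ∧ Cmp φ S p

variable {φ}

lemma Cmp.mono {S T : Finset A} {p : MvPolynomial (Fin n) ℤ} (h : Cmp φ S p) (hST : S ⊆ T) :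
    Cmp φ T p := fun B _ v hv => h B v (hv.mono hST)

lemma Cpl.union {S T : Finset A} (hS : Cpl φ S) (hT : Cpl φ T) : Cpl φ (S ∪ T) := by
  intro a ha
  rcases Finset.mem_union.mp ha with h | h
  · obtain ⟨p, hp, hc⟩ := hS a h
    exact ⟨p, hp, hc.mono Finset.subset_union_left⟩
  · obtain ⟨p, hp, hc⟩ := hT a h
    exact ⟨p, hp, hc.mono Finset.subset_union_right⟩

lemma Cpl.insert {S : Finset A} (hS : Cpl φ S) {p : MvPolynomial (Fin n) ℤ}
    (hp : Cmp φ (insert (φ p) S) p) : Cpl φ (insert (φ p) S) := by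
  intro a ha
  rcases Finset.mem_insert.mp ha with rfl | h
  · exact ⟨p, rfl, hp⟩
  · obtain ⟨q, hq, hc⟩ := hS a h
    exact ⟨q, hq, hc.mono (Finset.subset_insert _ _)⟩

lemma Cmp.var (S : Finset A) (i : Fin n) : Cmp φ S (X i) := fun B _ v _ => by rw [ev_X]

variable (φ)

/-- `p` can be computed -/
def Nc (p : MvPolynomial (Fin n) ℤ) : Prop := ∃ S : Finset A, φ p ∈ S ∧ Cmp φ S p ∧ Cpl φ S

variable {φ}

lemma Nc.add {p q : MvPolynomial (Fin n) ℤ} (hp : Nc φ p) (hq : Nc φ q) : Nc φ (p + q) := by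
  obtain ⟨S, hS1, hS2, hS3⟩ := hp
  obtain ⟨T, hT1, hT2, hT3⟩ := hq
  have key : Cmp φ (insert (φ (p + q)) (S ∪ T)) (p + q) := by
    intro B _ v hv
    have h1 : S ⊆ insert (φ (p + q)) (S ∪ T) :=
      Finset.subset_union_left.trans (Finset.subset_insert _ _)
    have h2 : T ⊆ insert (φ (p + q)) (S ∪ T) :=
      Finset.subset_union_right.trans (Finset.subset_insert _ _)
    rw [map_add, hv.add _ _ (h1 hS1) (h2 hT1) (by rw [← map_add]; exact Finset.mem_insert_self _ _),
      map_add, hS2 B v (hv.mono h1), hT2 B v (hv.mono h2)]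
  exact ⟨_, Finset.mem_insert_self _ _, key, (hS3.union hT3).insert key⟩

lemma Nc.mul {p q : MvPolynomial (Fin n) ℤ} (hp : Nc φ p) (hq : Nc φ q) : Nc φ (p * q) := by
  obtain ⟨S, hS1, hS2, hS3⟩ := hp
  obtain ⟨T, hT1, hT2, hT3⟩ := hq
  have key : Cmp φ (insert (φ (p * q)) (S ∪ T)) (p * q) := by
    intro B _ v hv
    have h1 : S ⊆ insert (φ (p * q)) (S ∪ T) :=
      Finset.subset_union_left.trans (Finset.subset_insert _ _)
    have h2 : T ⊆ insert (φ (p * q)) (S ∪ T) :=
      Finset.subset_union_right.trans (Finset.subset_insert _ _)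
    rw [map_mul, hv.mul _ _ (h1 hS1) (h2 hT1) (by rw [← map_mul]; exact Finset.mem_insert_self _ _),
      map_mul, hS2 B v (hv.mono h1), hT2 B v (hv.mono h2)]
  exact ⟨_, Finset.mem_insert_self _ _, key, (hS3.union hT3).insert key⟩

lemma Nc.var (i : Fin n) : Nc φ (X i) := by
  refine ⟨{φ (X i)}, Finset.mem_singleton_self _, Cmp.var _ i, ?_⟩
  intro a ha
  rw [Finset.mem_singleton] at ha
  exact ⟨X i, ha.symm, Cmp.var _ i⟩

lemma Nc.zero : Nc φ 0 := by
  have key : Cmp φ {φ 0} 0 := by
    intro B _ v hv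
    rw [map_zero, map_zero]
    exact hv.zero (by simp)
  refine ⟨{φ 0}, Finset.mem_singleton_self _, key, ?_⟩
  intro a ha
  rw [Finset.mem_singleton] at ha
  exact ⟨0, ha.symm, key⟩

lemma Nc.one : Nc φ 1 := by
  have key : Cmp φ {φ 1} 1 := by
    intro B _ v hv
    rw [map_one, map_one]
    exact hv.one (by simp)
  refine ⟨{φ 1}, Finset.mem_singleton_self _, key, ?_⟩
  intro a ha
  rw [Finset.mem_singleton] at ha
  exact ⟨1, ha.symm, key⟩

lemma Nc.neg {p : MvPolynomial (Fin n) ℤ} (hp : Nc φ p) : Nc φ (-p) := by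
  obtain ⟨S, hS1, hS2, hS3⟩ := hp
  obtain ⟨T, hT1, hT2, hT3⟩ := (Nc.zero : Nc φ 0)
  have key : Cmp φ (Insert.insert (φ (-p)) (S ∪ T)) (-p) := by
    intro B _ v hv
    have h1 : S ⊆ insert (φ (-p)) (S ∪ T) :=
      Finset.subset_union_left.trans (Finset.subset_insert _ _)
    have h2 : T ⊆ insert (φ (-p)) (S ∪ T) :=
      Finset.subset_union_right.trans (Finset.subset_insert _ _)
    have h0 : (0 : A) ∈ insert (φ (-p)) (S ∪ T) := by
      have := h2 hT1
      rwa [map_zero] at this
    have e1 : φ p + φ (-p) = 0 := by rw [map_neg, add_neg_cancel]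
    have h3 := hv.add (φ p) (φ (-p)) (h1 hS1) (Finset.mem_insert_self _ _) (by rw [e1]; exact h0)
    rw [e1, hv.zero h0, hS2 B v (hv.mono h1)] at h3
    rw [map_neg (ev fun i => v (φ (X i)))]
    exact (neg_eq_of_add_eq_zero_right h3.symm).symm
  exact ⟨_, Finset.mem_insert_self _ _, key, (hS3.union hT3).insert key⟩

lemma Nc.int (a : ℤ) : Nc φ (C a) := by
  induction a using Int.induction_on with
  | zero => rw [map_zero]; exact Nc.zero
  | succ i ih => rw [map_add, map_one]; exact ih.add Nc.one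
  | pred i ih => rw [map_sub, map_one, sub_eq_add_neg]; exact ih.add Nc.one.neg

lemma Nc.all (p : MvPolynomial (Fin n) ℤ) : Nc φ p := by
  induction p using MvPolynomial.induction_on with
  | C a => exact Nc.int a
  | add p q hp hq => exact hp.add hq
  | mul_X p i hp => exact hp.mul (Nc.var i)

/-- finitely many polynomials can be computed together -/
lemma exists_cpl (P : Finset (MvPolynomial (Fin n) ℤ)) :
    ∃ S : Finset A, Cpl φ S ∧ ∀ p ∈ P, φ p ∈ S ∧ Cmp φ S p := by
  induction P using Finset.induction_on with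
  | empty => exact ⟨∅, fun a ha => absurd ha (Finset.notMem_empty a), by simp⟩
  | insert p P _ ih =>
    obtain ⟨S, hS1, hS2⟩ := ih
    obtain ⟨T, hT1, hT2, hT3⟩ := Nc.all (φ := φ) p
    refine ⟨S ∪ T, hS1.union hT3, ?_⟩
    intro q hq
    rcases Finset.mem_insert.mp hq with rfl | hq
    · exact ⟨Finset.mem_union_right _ hT1, hT2.mono Finset.subset_union_right⟩
    · exact ⟨Finset.mem_union_left _ (hS2 q hq).1, (hS2 q hq).2.mono Finset.subset_union_left⟩

end

/-- every ring of finite type has a finite subset which determines it -/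
theorem exists_present {A : Type} [CommRing A] (hA : FT A) :
    ∃ S : Finset A,
      (∀ (B : Type) [CommRing B] (v : A → B), PH S v → ∃ ψ : A →+* B, ∀ a ∈ S, ψ a = v a) ∧
      (∀ (B : Type) [CommRing B] (ψ χ : A →+* B), (∀ a ∈ S, ψ a = χ a) → ψ = χ) := by
  obtain ⟨n, φ, hφ⟩ := hA
  obtain ⟨G, hG⟩ : (RingHom.ker φ).FG := IsNoetherian.noetherian _
  obtain ⟨S, hS1, hS2⟩ := exists_cpl (φ := φ)
    (insert 0 (G ∪ Finset.univ.image (fun i : Fin n => (X i : MvPolynomial (Fin n) ℤ))))
  have h0 : (0 : A) ∈ S := by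
    have := (hS2 0 (Finset.mem_insert_self _ _)).1
    rwa [map_zero] at this
  have hX : ∀ i, φ (X i) ∈ S := fun i => (hS2 (X i) (Finset.mem_insert_of_mem
    (Finset.mem_union_right _ (Finset.mem_image_of_mem _ (Finset.mem_univ i))))).1
  refine ⟨S, ?_, ?_⟩
  · intro B _ v hv
    have hker : RingHom.ker φ ≤ RingHom.ker (ev fun i => v (φ (X i))) := by
      rw [← hG, Ideal.span_le]
      intro g hg
      have hg1 : φ g = 0 := by
        have : g ∈ RingHom.ker φ := by
          rw [← hG]; exact Ideal.subset_span hg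
        exact this
      have hg2 := (hS2 g (Finset.mem_insert_of_mem (Finset.mem_union_left _ hg))).2 B v hv
      rw [hg1, hv.zero h0] at hg2
      exact hg2.symm
    let ψ : A →+* B := RingHom.liftOfSurjective φ hφ ⟨ev fun i => v (φ (X i)), hker⟩
    have hψ : ∀ p, ψ (φ p) = ev (fun i => v (φ (X i))) p := fun p =>
      RingHom.liftOfRightInverse_comp_apply _ _ (Function.rightInverse_surjInv hφ)
        ⟨ev fun i => v (φ (X i)), hker⟩ p
    refine ⟨ψ, fun a ha => ?_⟩
    obtain ⟨p, rfl, hc⟩ := hS1 a ha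
    rw [hψ, hc B v hv]
  · intro B _ ψ χ h
    have h1 : ψ.comp φ = χ.comp φ :=
      MvPolynomial.ringHom_ext' (RingHom.ext_int _ _) fun i => h _ (hX i)
    ext a
    obtain ⟨p, rfl⟩ := hφ a
    exact congrArg (fun χ : MvPolynomial (Fin n) ℤ →+* B => χ p) h1

/-! ### The bilinear system of a finite subset -/

section

variable {A : Type} [CommRing A] (S : Finset A)

/-- the first variables -/
abbrev VI : Type := Option (S × Bool)

/-- the second variables -/
abbrev VJ : Type := Option S

/-- the canonical point -/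
def can : VI S ⊕ VJ S → A :=
  Sum.elim (fun o => o.elim 1 fun f => f.1.1) (fun o => o.elim 1 fun f => -f.1)

/-- all bilinear relations with coefficients `0`, `1` of the canonical point -/
abbrev Rel : Type := {E : Finset (VI S × VJ S) //
  ∑ p ∈ E, can S (Sum.inl p.1) * can S (Sum.inr p.2) = 0}

/-- the system of all these relations -/
def rel : Rel S → Finset (VI S × VJ S) := fun κ => κ.1

variable {S}

lemma rel_pt {B : Type} [CommRing B] {x : VI S ⊕ VJ S → B}
    (hx : Pt (Sl2 none none (rel S)) x) (E : Finset (VI S × VJ S))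
    (hE : ∑ p ∈ E, can S (Sum.inl p.1) * can S (Sum.inr p.2) = 0) :
    ∑ p ∈ E, x (Sum.inl p.1) * x (Sum.inr p.2) = 0 := by
  rw [Pt.sl2_iff] at hx
  exact hx.2.2 ⟨E, hE⟩

/-- the values at the elements of `S` -/
noncomputable def vl {B : Type} [CommRing B] (x : VI S ⊕ VJ S → B) : A → B :=
  fun a => if h : a ∈ S then x (Sum.inl (some (⟨a, h⟩, false))) else 0

lemma vl_of {B : Type} [CommRing B] (x : VI S ⊕ VJ S → B) (f : S) :
    vl x f.1 = x (Sum.inl (some (f, false))) := by
  unfold vl
  rw [dif_pos f.2]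

section

variable {B : Type} [CommRing B] {x : VI S ⊕ VJ S → B} (hx : Pt (Sl2 none none (rel S)) x)

include hx

lemma x_none : x (Sum.inl none) = 1 := (Pt.sl2_iff.mp hx).2.1

lemma y_none : x (Sum.inr none) = 1 := (Pt.sl2_iff.mp hx).1

lemma y_some (f : S) (b : Bool) : x (Sum.inl (some (f, b))) = - x (Sum.inr (some f)) := by
  have h := rel_pt hx {(some (f, b), none), (none, some f)} (by
    rw [Finset.sum_pair (by simp)]
    simp [can])
  rw [Finset.sum_pair (by simp)] at h
  simp only [x_none hx, y_none hx, mul_one, one_mul] at h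
  exact eq_neg_of_add_eq_zero_left h

lemma ph_vl : PH S (vl x) where
  one h1 := by
    have h := rel_pt hx {(none, some ⟨1, h1⟩), (none, none)} (by
      rw [Finset.sum_pair (by simp)]
      simp [can])
    rw [Finset.sum_pair (by simp)] at h
    simp only [x_none hx, y_none hx, mul_one, one_mul] at h
    have h2 := vl_of x ⟨1, h1⟩
    rw [y_some hx, eq_neg_of_add_eq_zero_left h, neg_neg] at h2
    exact h2
  add a b ha hb hab := by
    have h := rel_pt hx {(some (⟨a, ha⟩, false), none), (some (⟨b, hb⟩, true), none),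
      (none, some ⟨a + b, hab⟩)} (by
      rw [Finset.sum_insert (by simp), Finset.sum_pair (by simp)]
      simp [can])
    rw [Finset.sum_insert (by simp), Finset.sum_pair (by simp)] at h
    simp only [x_none hx, y_none hx, mul_one, one_mul] at h
    have h1 := vl_of x ⟨a, ha⟩
    have h2 := vl_of x ⟨b, hb⟩
    have h3 := vl_of x ⟨a + b, hab⟩
    simp only [] at h1 h2 h3
    rw [h1, h2, h3, y_some hx ⟨b, hb⟩ false, ← y_some hx ⟨b, hb⟩ true, y_some hx ⟨a + b, hab⟩]
    linear_combination -h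
  mul a b ha hb hab := by
    have h := rel_pt hx {(some (⟨a, ha⟩, false), some ⟨b, hb⟩),
      (some (⟨a * b, hab⟩, false), none)} (by
      rw [Finset.sum_pair (by simp)]
      simp [can])
    rw [Finset.sum_pair (by simp)] at h
    simp only [x_none hx, y_none hx, mul_one, one_mul] at h
    have h1 := vl_of x ⟨a, ha⟩
    have h2 := vl_of x ⟨b, hb⟩
    have h3 := vl_of x ⟨a * b, hab⟩
    simp only [] at h1 h2 h3
    rw [h1, h2, h3, y_some hx ⟨b, hb⟩ false]
    linear_combination h

end

variable (S)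

lemma can_pt : Pt (Sl2 none none (rel S)) (can S) := by
  rw [Pt.sl2_iff]
  exact ⟨rfl, rfl, fun κ => κ.2⟩

end

/-- every ring of finite type is the ring of a slice of a bilinear system with coefficients
`0` and `1` -/
theorem exists_slice {A : Type} [CommRing A] (hA : FT A) :
    ∃ (I J K : Type) (_ : Finite I) (_ : Finite J) (_ : Finite K) (i₀ : I) (j₀ : J)
      (F : K → Finset (I × J)) (u : I ⊕ J → A), Rep A (Sl2 i₀ j₀ F) u := by
  obtain ⟨S, h1, h2⟩ := exists_present hA
  have hK : Finite (Rel S) := inferInstance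
  refine ⟨VI S, VJ S, Rel S, inferInstance, inferInstance, hK, none, none, rel S, can S,
    can_pt S, ?_, ?_⟩
  · intro B _ x hx
    obtain ⟨ψ, hψ⟩ := h1 B (vl x) (ph_vl hx)
    refine ⟨ψ, ?_⟩
    rintro ((_ | ⟨f, b⟩) | (_ | f))
    · show ψ 1 = _
      rw [map_one, x_none hx]
    · show ψ f.1 = _
      rw [hψ f.1 f.2, vl_of, y_some hx f false, y_some hx f b]
    · show ψ 1 = _
      rw [map_one, y_none hx]
    · show ψ (-f.1) = _
      rw [map_neg, hψ f.1 f.2, vl_of, y_some hx f false, neg_neg]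
  · intro B _ ψ χ h
    refine h2 B ψ χ fun a ha => ?_
    exact h (Sum.inl (some (⟨a, ha⟩, false)))

end Pool.Agent.Helper81.CP
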