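import Pool.Agent.Helper81.CP.Bil

/-!
# Slices of bilinear systems
-/

set_option autoImplicit false

open MvPolynomial
open scoped Classical

namespace Pool.Agent.Helper81.CP

variable {Q : ∀ (R : Type) [CommRing R], ℤ → Prop}

variable {I J K : Type}

/-- the bilinear form which is the sum of the monomials `x_i y_j`, `(i, j) ∈ E` -/
noncomputable def bil (E : Finset (I × J)) : MvPolynomial (I ⊕ J) ℤ :=
  ∑ p ∈ E, X (Sum.inl p.1) * X (Sum.inr p.2)

lemma ev_bil (E : Finset (I × J)) {A : Type} [CommRing A] (x : I ⊕ J → A) :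
    ev x (bil E) = ∑ p ∈ E, x (Sum.inl p.1) * x (Sum.inr p.2) := by
  simp only [bil, map_sum, map_mul, ev_X]

/-- a system of bilinear equations -/
noncomputable def Bil (F : K → Finset (I × J)) : Set (MvPolynomial (I ⊕ J) ℤ) :=
  Set.range fun κ => bil (F κ)

lemma Pt.bil_iff {F : K → Finset (I × J)} {A : Type} [CommRing A] {x : I ⊕ J → A} :
    Pt (Bil F) x ↔ ∀ κ, ∑ p ∈ F κ, x (Sum.inl p.1) * x (Sum.inr p.2) = 0 := by
  simp only [Pt, Bil, Set.forall_mem_range, ev_bil]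

/-- the slice `x_i = 1` of a bilinear system -/
noncomputable def Sl1 (i₀ : I) (F : K → Finset (I × J)) : Set (MvPolynomial (I ⊕ J) ℤ) :=
  insert (X (Sum.inl i₀) - 1) (Bil F)

lemma Pt.sl1_iff {i₀ : I} {F : K → Finset (I × J)} {A : Type} [CommRing A] {x : I ⊕ J → A} :
    Pt (Sl1 i₀ F) x ↔ x (Sum.inl i₀) = 1 ∧
      ∀ κ, ∑ p ∈ F κ, x (Sum.inl p.1) * x (Sum.inr p.2) = 0 := by
  rw [Sl1, Pt.insert_iff, Pt.bil_iff, map_sub, ev_X, map_one, sub_eq_zero]

/-- the slice `x_i = y_j = 1` of a bilinear system -/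
noncomputable def Sl2 (i₀ : I) (j₀ : J) (F : K → Finset (I × J)) :
    Set (MvPolynomial (I ⊕ J) ℤ) :=
  insert (X (Sum.inr j₀) - 1) (Sl1 i₀ F)

lemma Pt.sl2_iff {i₀ : I} {j₀ : J} {F : K → Finset (I × J)} {A : Type} [CommRing A]
    {x : I ⊕ J → A} :
    Pt (Sl2 i₀ j₀ F) x ↔ x (Sum.inr j₀) = 1 ∧ x (Sum.inl i₀) = 1 ∧
      ∀ κ, ∑ p ∈ F κ, x (Sum.inl p.1) * x (Sum.inr p.2) = 0 := by
  rw [Sl2, Pt.insert_iff, Pt.sl1_iff, map_sub, ev_X, map_one, sub_eq_zero]

lemma sum_rm {A : Type} [CommRing A] (E : Finset (I × J)) (P : I × J → Prop)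
    [DecidablePred P] (f : I × J → A) (h : ∀ p, ¬ P p → f p = 0) :
    ∑ p ∈ E.filter P, f p = ∑ p ∈ E, f p := by
  refine Finset.sum_subset (Finset.filter_subset _ _) fun p hp hp' => ?_
  refine h p fun hP => hp' (Finset.mem_filter.mpr ⟨hp, hP⟩)

variable (hQ : RingCP Q) [Finite I] [Finite J]

include hQ

theorem RingCP.good_sl1 (i₀ : I) (h : ∀ F : K → Finset (I × J), Good Q (Bil F))
    (F : K → Finset (I × J)) : Good Q (Sl1 i₀ F) := by
  let F' : K → Finset (I × J) := fun κ => (F κ).filter (fun p => p.1 ≠ i₀)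
  have h1 : Good Q (insert (X (Sum.inl i₀)) (Bil F')) := by
    refine (hQ.good_free _ (Sum.inl i₀) ?_).mp (h F')
    intro A _ x y hxy hx
    rw [Pt.bil_iff] at hx ⊢
    intro κ
    rw [← hx κ]
    refine Finset.sum_congr rfl fun p hp => ?_
    have hp' : p.1 ≠ i₀ := (Finset.mem_filter.mp hp).2
    rw [hxy (Sum.inl p.1) (by simpa using hp'), hxy (Sum.inr p.2) (by simp)]
  have h2 : Good Q (insert (X (Sum.inl i₀)) (Bil F)) := by
    refine (hQ.good_congr fun A _ x => ?_).mp h1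
    rw [Pt.insert_iff, Pt.insert_iff, Pt.bil_iff, Pt.bil_iff, ev_X]
    refine and_congr_right fun h0 => forall_congr' fun κ => ?_
    have e := sum_rm (F κ) (fun p => p.1 ≠ i₀) (fun p => x (Sum.inl p.1) * x (Sum.inr p.2))
      fun p hp => by
        have : p.1 = i₀ := not_not.mp hp
        rw [this, h0, zero_mul]
    show ∑ p ∈ (F κ).filter (fun p => p.1 ≠ i₀), x (Sum.inl p.1) * x (Sum.inr p.2) = 0 ↔ _
    rw [e]
  have h3 : Good Q (dop (X (Sum.inl i₀)) (Bil F)) := fun s => hQ.opn' (h F s) (h2 s)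
  refine (hQ.good_scale (Bil F) (Set.range Sum.inl) (X (Sum.inl i₀)) ?_ ?_).mp h3
  · intro A _ x c hx
    rw [Pt.bil_iff] at hx ⊢
    intro κ
    have : ∑ p ∈ F κ, scl (Set.range Sum.inl) c x (Sum.inl p.1) *
        scl (Set.range Sum.inl) c x (Sum.inr p.2) =
        c * ∑ p ∈ F κ, x (Sum.inl p.1) * x (Sum.inr p.2) := by
      rw [Finset.mul_sum]
      refine Finset.sum_congr rfl fun p _ => ?_
      simp [scl, mul_assoc]
    rw [this, hx κ, mul_zero]
  · intro A _ x c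
    simp [scl]

theorem RingCP.good_sl2 (i₀ : I) (j₀ : J) (h : ∀ F : K → Finset (I × J), Good Q (Bil F))
    (F : K → Finset (I × J)) : Good Q (Sl2 i₀ j₀ F) := by
  let F' : K → Finset (I × J) := fun κ => (F κ).filter (fun p => p.2 ≠ j₀)
  have h1 : Good Q (insert (X (Sum.inr j₀)) (Sl1 i₀ F')) := by
    refine (hQ.good_free _ (Sum.inr j₀) ?_).mp (hQ.good_sl1 i₀ h F')
    intro A _ x y hxy hx
    rw [Pt.sl1_iff] at hx ⊢
    refine ⟨by rw [hxy (Sum.inl i₀) (by simp)]; exact hx.1, fun κ => ?_⟩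
    rw [← hx.2 κ]
    refine Finset.sum_congr rfl fun p hp => ?_
    have hp' : p.2 ≠ j₀ := (Finset.mem_filter.mp hp).2
    rw [hxy (Sum.inl p.1) (by simp), hxy (Sum.inr p.2) (by simpa using hp')]
  have h2 : Good Q (insert (X (Sum.inr j₀)) (Sl1 i₀ F)) := by
    refine (hQ.good_congr fun A _ x => ?_).mp h1
    rw [Pt.insert_iff, Pt.insert_iff, Pt.sl1_iff, Pt.sl1_iff, ev_X]
    refine and_congr_right fun h0 => and_congr_right fun _ => forall_congr' fun κ => ?_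
    have e := sum_rm (F κ) (fun p => p.2 ≠ j₀) (fun p => x (Sum.inl p.1) * x (Sum.inr p.2))
      fun p hp => by
        have : p.2 = j₀ := not_not.mp hp
        rw [this, h0, mul_zero]
    show ∑ p ∈ (F κ).filter (fun p => p.2 ≠ j₀), x (Sum.inl p.1) * x (Sum.inr p.2) = 0 ↔ _
    rw [e]
  have h3 : Good Q (dop (X (Sum.inr j₀)) (Sl1 i₀ F)) := fun s =>
    hQ.opn' (hQ.good_sl1 i₀ h F s) (h2 s)
  refine (hQ.good_scale (Sl1 i₀ F) (Set.range Sum.inr) (X (Sum.inr j₀)) ?_ ?_).mp h3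
  · intro A _ x c hx
    rw [Pt.sl1_iff] at hx ⊢
    refine ⟨by simpa [scl] using hx.1, fun κ => ?_⟩
    have : ∑ p ∈ F κ, scl (Set.range Sum.inr) c x (Sum.inl p.1) *
        scl (Set.range Sum.inr) c x (Sum.inr p.2) =
        c * ∑ p ∈ F κ, x (Sum.inl p.1) * x (Sum.inr p.2) := by
      rw [Finset.mul_sum]
      refine Finset.sum_congr rfl fun p _ => ?_
      simp [scl, mul_left_comm]
    rw [this, hx.2 κ, mul_zero]
  · intro A _ x c
    simp [scl]

end Pool.Agent.Helper81.CP
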