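import Pool.Agent.Helper81.CP.Sch

/-!
# The hypersurfaces `form = 1` are smooth over `ℤ`
-/

set_option autoImplicit false

open AlgebraicGeometry CategoryTheory MvPolynomial
open scoped Classical

namespace Pool.Agent.Helper81.CP

lemma ev_scl_form {n : ℕ} (T : Finset (Fin n × Fin n × Fin n)) {A : Type} [CommRing A]
    (x : Fin 3 × Fin n → A) (c : A) :
    ev (scl {q : Fin 3 × Fin n | q.1 = 2} c x) (form n T) = c * ev x (form n T) := by
  rw [ev_form, ev_form, Finset.mul_sum]
  refine Finset.sum_congr rfl fun t _ => ?_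
  simp [scl]
  ring

lemma formallySmooth_form (n : ℕ) (T : Finset (Fin n × Fin n × Fin n)) :
    Algebra.FormallySmooth ℤ (Rng (Fin 3 × Fin n) {form n T - 1}) := by
  refine Algebra.FormallySmooth.of_comp_surjective fun B _ _ I hI φ => ?_
  let E : Set (MvPolynomial (Fin 3 × Fin n) ℤ) := {form n T - 1}
  obtain ⟨x, hx⟩ : ∃ x : Fin 3 × Fin n → B, ∀ i, Ideal.Quotient.mk I (x i) =
      (φ : Rng (Fin 3 × Fin n) E →+* B ⧸ I) (tau E i) :=
    ⟨fun i => (Ideal.Quotient.mk_surjective (φ (tau E i))).choose,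
      fun i => (Ideal.Quotient.mk_surjective (φ (tau E i))).choose_spec⟩
  have h0 : Pt E (fun i => Ideal.Quotient.mk I (x i)) := by
    rw [funext hx]
    exact (rep_rng E).pt.map _
  have h1 : ev x (form n T) - 1 ∈ I := by
    rw [Pt.singleton_iff, ← ev_map, map_sub, map_one] at h0
    exact Ideal.Quotient.eq_zero_iff_mem.mp h0
  have h2 : (ev x (form n T) - 1) ^ 2 = 0 := by
    have h3 := Ideal.pow_mem_pow h1 2
    rwa [hI, Ideal.mem_bot] at h3
  let y : Fin 3 × Fin n → B :=
    scl {q : Fin 3 × Fin n | q.1 = 2} (1 - (ev x (form n T) - 1)) x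
  have hy : Pt E y := by
    rw [Pt.singleton_iff, map_sub, map_one, ev_scl_form]
    linear_combination -h2
  have hxy : ∀ i, Ideal.Quotient.mk I (y i) = Ideal.Quotient.mk I (x i) := by
    intro i
    rw [Ideal.Quotient.eq]
    by_cases hi : i.1 = 2
    · have h4 : y i - x i = -x i * (ev x (form n T) - 1) := by
        simp only [y, scl, Set.mem_ofPred_eq, hi, if_true]
        ring
      rw [h4]
      exact I.mul_mem_left _ h1
    · have h4 : y i - x i = 0 := by
        simp only [y, scl, Set.mem_ofPred_eq, hi, if_false, sub_self]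
      rw [h4]
      exact I.zero_mem
  obtain ⟨ψ, hψ⟩ := (rep_rng E).ex B y hy
  refine ⟨{ ψ with commutes' := fun r => ?_ }, ?_⟩
  · exact congrArg (fun g : ℤ →+* B => g r)
      (RingHom.ext_int (ψ.comp (algebraMap ℤ (Rng (Fin 3 × Fin n) E))) (algebraMap ℤ B))
  · refine AlgHom.coe_ringHom_injective ?_
    refine (rep_rng E).uniq _ _ _ fun i => ?_
    rw [← hx i, ← hxy i, ← hψ i]
    rfl

lemma smooth_form (n : ℕ) (T : Finset (Fin n × Fin n × Fin n)) :
    Algebra.Smooth ℤ (Rng (Fin 3 × Fin n) {form n T - 1}) where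
  formallySmooth := formallySmooth_form n T
  finitePresentation := by
    have h : Algebra.FiniteType ℤ (Rng (Fin 3 × Fin n) {form n T - 1}) :=
      Algebra.FiniteType.trans (S := MvPolynomial (Fin 3 × Fin n) ℤ) inferInstance inferInstance
    exact Algebra.FinitePresentation.of_finiteType.mp h

/-- the schemes `form n T = 1` are smooth over `ℤ` -/
theorem smooth_hyp (n : ℕ) (T : Finset (Fin n × Fin n × Fin n))
    (f : Hyp n 1 T ⟶ Spec (CommRingCat.of ℤ)) : Smooth f := by
  have key : ∀ g : Spec (CommRingCat.of (MvPolynomial (Fin 3 × Fin n) ℤ ⧸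
      Ideal.span {form n T - MvPolynomial.C 1})) ⟶ Spec (CommRingCat.of ℤ), Smooth g := by
    intro g
    obtain ⟨φ, hφ⟩ := Spec.map_surjective g
    rw [← hφ, HasRingHomProperty.Spec_iff (P := @Smooth)]
    have h3 : φ.hom = algebraMap ℤ (MvPolynomial (Fin 3 × Fin n) ℤ ⧸
      Ideal.span {form n T - MvPolynomial.C 1}) := RingHom.ext_int _ _
    rw [h3, RingHom.smooth_algebraMap]
    exact smooth_form n T
  exact key f

end Pool.Agent.Helper81.CP
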