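import Mathlib

/-!
# Affine schemes of finite type over `ℤ` as systems of polynomial equations

`Rng σ E` is the ring of the system `E` of polynomial equations in the variables `σ`.
Isomorphisms are checked on points with values in all commutative rings.
-/

set_option autoImplicit false

open MvPolynomial

namespace Pool.Agent.Helper81.CP

/-- the coordinate ring of the system `E` -/
abbrev Rng (σ : Type) (E : Set (MvPolynomial σ ℤ)) : Type := MvPolynomial σ ℤ ⧸ Ideal.span E

/-- evaluation of integer polynomials -/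
noncomputable def ev {σ A : Type} [CommRing A] (x : σ → A) : MvPolynomial σ ℤ →+* A :=
  eval₂Hom (Int.castRingHom A) x

@[simp] lemma ev_X {σ A : Type} [CommRing A] (x : σ → A) (i : σ) : ev x (X i) = x i := by
  simp [ev]

@[simp] lemma ev_rename {σ τ A : Type} [CommRing A] (x : τ → A) (k : σ → τ)
    (p : MvPolynomial σ ℤ) : ev x (rename k p) = ev (fun i => x (k i)) p := by
  simp only [ev, coe_eval₂Hom, eval₂_rename]
  rfl

lemma ev_map {σ : Type} {A B : Type} [CommRing A] [CommRing B] (φ : A →+* B) (x : σ → A)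
    (p : MvPolynomial σ ℤ) : φ (ev x p) = ev (fun i => φ (x i)) p := by
  have h : φ.comp (ev x) = ev (fun i => φ (x i)) :=
    MvPolynomial.ringHom_ext' (RingHom.ext_int _ _) fun i => by simp
  exact congrArg (fun ψ : MvPolynomial σ ℤ →+* B => ψ p) h

/-- `x` is a solution of the system `E` -/
def Pt {σ : Type} (E : Set (MvPolynomial σ ℤ)) {A : Type} [CommRing A] (x : σ → A) : Prop :=
  ∀ p ∈ E, ev x p = 0

lemma Pt.map {σ : Type} {E : Set (MvPolynomial σ ℤ)} {A B : Type} [CommRing A] [CommRing B]
    {x : σ → A} (hx : Pt E x) (φ : A →+* B) : Pt E (fun i => φ (x i)) := fun p hp => by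
  rw [← ev_map, hx p hp, map_zero]

/-- `R` with the solution `u` represents the system `E` -/
structure Rep (R : Type) [CommRing R] {σ : Type} (E : Set (MvPolynomial σ ℤ)) (u : σ → R) :
    Prop where
  pt : Pt E u
  ex : ∀ (A : Type) [CommRing A] (x : σ → A), Pt E x → ∃ φ : R →+* A, ∀ i, φ (u i) = x i
  uniq : ∀ (A : Type) [CommRing A] (φ ψ : R →+* A), (∀ i, φ (u i) = ψ (u i)) → φ = ψ

/-- the tautological solution -/
noncomputable def tau {σ : Type} (E : Set (MvPolynomial σ ℤ)) : σ → Rng σ E :=
  fun i => Ideal.Quotient.mk _ (X i)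

lemma ev_tau {σ : Type} (E : Set (MvPolynomial σ ℤ)) (p : MvPolynomial σ ℤ) :
    ev (tau E) p = Ideal.Quotient.mk (Ideal.span E) p := by
  have h : ev (tau E) = Ideal.Quotient.mk (Ideal.span E) :=
    MvPolynomial.ringHom_ext' (RingHom.ext_int _ _) fun i => by simp [tau]
  exact congrArg (fun ψ : MvPolynomial σ ℤ →+* Rng σ E => ψ p) h

lemma rep_rng {σ : Type} (E : Set (MvPolynomial σ ℤ)) : Rep (Rng σ E) E (tau E) where
  pt p hp := by
    rw [ev_tau]
    exact Ideal.Quotient.eq_zero_iff_mem.mpr (Ideal.subset_span hp)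
  ex A _ x hx := by
    refine ⟨Ideal.Quotient.lift _ (ev x) ?_, fun i => ?_⟩
    · intro a ha
      have hle : Ideal.span E ≤ RingHom.ker (ev x) :=
        Ideal.span_le.mpr fun p hp => RingHom.mem_ker.mpr (hx p hp)
      exact hle ha
    · exact (Ideal.Quotient.lift_mk _ _ _).trans (ev_X x i)
  uniq A _ φ ψ h := by
    refine Ideal.Quotient.ringHom_ext ?_
    exact MvPolynomial.ringHom_ext' (RingHom.ext_int _ _) fun i => h i

/-- natural bijections between the solutions of two systems give isomorphic rings -/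
theorem Rep.iso {R S : Type} [CommRing R] [CommRing S] {σ τ : Type}
    {E : Set (MvPolynomial σ ℤ)} {E' : Set (MvPolynomial τ ℤ)} {u : σ → R} {v : τ → S}
    (hR : Rep R E u) (hS : Rep S E' v)
    (f : ∀ (A : Type) [CommRing A], (σ → A) → (τ → A))
    (g : ∀ (A : Type) [CommRing A], (τ → A) → (σ → A))
    (nf : ∀ (A B : Type) [CommRing A] [CommRing B] (φ : A →+* B) (x : σ → A), Pt E x →
      ∀ j, φ (f A x j) = f B (fun i => φ (x i)) j)
    (ng : ∀ (A B : Type) [CommRing A] [CommRing B] (φ : A →+* B) (y : τ → A), Pt E' y →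
      ∀ i, φ (g A y i) = g B (fun j => φ (y j)) i)
    (hf : ∀ (A : Type) [CommRing A] (x : σ → A), Pt E x → Pt E' (f A x))
    (hg : ∀ (A : Type) [CommRing A] (y : τ → A), Pt E' y → Pt E (g A y))
    (gf : ∀ (A : Type) [CommRing A] (x : σ → A), Pt E x → g A (f A x) = x)
    (fg : ∀ (A : Type) [CommRing A] (y : τ → A), Pt E' y → f A (g A y) = y) :
    Nonempty (R ≃+* S) := by
  obtain ⟨φ, hφ⟩ := hR.ex S (g S v) (hg S v hS.pt)
  obtain ⟨ψ, hψ⟩ := hS.ex R (f R u) (hf R u hR.pt)
  have h1 : ψ.comp φ = RingHom.id R := by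
    refine hR.uniq R _ _ fun i => ?_
    rw [RingHom.comp_apply, hφ, ng S R ψ v hS.pt]
    have : (fun j => ψ (v j)) = f R u := funext hψ
    rw [this, gf R u hR.pt]; rfl
  have h2 : φ.comp ψ = RingHom.id S := by
    refine hS.uniq S _ _ fun j => ?_
    rw [RingHom.comp_apply, hψ, nf R S φ u hR.pt]
    have : (fun i => φ (u i)) = g S v := funext hφ
    rw [this, fg S v hS.pt]; rfl
  exact ⟨RingEquiv.ofRingHom φ ψ h2 h1⟩

theorem Rep.iso' {R S : Type} [CommRing R] [CommRing S] {σ : Type}
    {E : Set (MvPolynomial σ ℤ)} {u : σ → R} {v : σ → S}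
    (hR : Rep R E u) (hS : Rep S E v) : Nonempty (R ≃+* S) :=
  hR.iso hS (fun _ _ x => x) (fun _ _ x => x) (fun _ _ _ _ _ _ _ _ => rfl)
    (fun _ _ _ _ _ _ _ _ => rfl) (fun _ _ _ h => h) (fun _ _ _ h => h) (fun _ _ _ _ => rfl)
    (fun _ _ _ _ => rfl)

lemma Pt.insert_iff {σ : Type} {E : Set (MvPolynomial σ ℤ)} {p : MvPolynomial σ ℤ} {A : Type}
    [CommRing A] {x : σ → A} : Pt (insert p E) x ↔ ev x p = 0 ∧ Pt E x := by
  simp [Pt]

/-- the closed subscheme `p = 0` -/
lemma Rep.closed {R : Type} [CommRing R] {σ : Type} {E : Set (MvPolynomial σ ℤ)} {u : σ → R}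
    (h : Rep R E u) (p : MvPolynomial σ ℤ) :
    Rep (R ⧸ Ideal.span {ev u p}) (insert p E) (fun i => Ideal.Quotient.mk _ (u i)) where
  pt := by
    rw [Pt.insert_iff]
    refine ⟨?_, h.pt.map _⟩
    rw [← ev_map (Ideal.Quotient.mk _) u p]
    exact Ideal.Quotient.eq_zero_iff_mem.mpr (Ideal.subset_span rfl)
  ex A _ x hx := by
    rw [Pt.insert_iff] at hx
    obtain ⟨φ, hφ⟩ := h.ex A x hx.2
    refine ⟨Ideal.Quotient.lift _ φ ?_, fun i => by rw [Ideal.Quotient.lift_mk, hφ]⟩
    intro a ha
    obtain ⟨b, rfl⟩ := Ideal.mem_span_singleton.mp ha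
    have h2 : φ (ev u p) = 0 := by
      rw [ev_map, show (fun i => φ (u i)) = x from funext hφ, hx.1]
    rw [map_mul, h2, zero_mul]
  uniq A _ φ ψ hh := by
    refine Ideal.Quotient.ringHom_ext ?_
    exact h.uniq A _ _ fun i => hh i

/-- the system with one more variable `none`, which is free -/
noncomputable def lft {σ : Type} (E : Set (MvPolynomial σ ℤ)) : Set (MvPolynomial (Option σ) ℤ) :=
  rename some '' E

lemma Pt.lft_iff {σ : Type} {E : Set (MvPolynomial σ ℤ)} {A : Type}
    [CommRing A] {x : Option σ → A} : Pt (lft E) x ↔ Pt E (fun i => x (some i)) := by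
  simp only [Pt, lft, Set.forall_mem_image, ev_rename]

/-- the system with one more variable `none`, which is the inverse of `p` -/
noncomputable def dop {σ : Type} (p : MvPolynomial σ ℤ) (E : Set (MvPolynomial σ ℤ)) :
    Set (MvPolynomial (Option σ) ℤ) :=
  insert (X none * rename some p - 1) (lft E)

lemma Pt.dop_iff {σ : Type} {E : Set (MvPolynomial σ ℤ)} {p : MvPolynomial σ ℤ} {A : Type}
    [CommRing A] {x : Option σ → A} :
    Pt (dop p E) x ↔ x none * ev (fun i => x (some i)) p = 1 ∧ Pt E (fun i => x (some i)) := by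
  rw [dop, Pt.insert_iff, Pt.lft_iff]
  simp only [map_sub, map_mul, ev_X, map_one, ev_rename, sub_eq_zero]

/-- the affine line over the scheme -/
lemma Rep.line {R : Type} [CommRing R] {σ : Type} {E : Set (MvPolynomial σ ℤ)} {u : σ → R}
    (h : Rep R E u) :
    Rep (Polynomial R) (lft E) (fun i => i.elim Polynomial.X fun j => Polynomial.C (u j)) where
  pt := by
    rw [Pt.lft_iff]
    exact h.pt.map Polynomial.C
  ex A _ x hx := by
    rw [Pt.lft_iff] at hx
    obtain ⟨φ, hφ⟩ := h.ex A _ hx
    refine ⟨Polynomial.eval₂RingHom φ (x none), fun i => ?_⟩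
    rcases i with _ | j
    · simp
    · simp [hφ]
  uniq A _ φ ψ hh := by
    refine Polynomial.ringHom_ext' ?_ (hh none)
    exact h.uniq A _ _ fun i => hh (some i)

/-- the open subscheme `p ≠ 0` -/
lemma Rep.dop {R : Type} [CommRing R] {σ : Type} {E : Set (MvPolynomial σ ℤ)} {u : σ → R}
    (h : Rep R E u) (p : MvPolynomial σ ℤ) :
    Rep (Localization.Away (ev u p)) (CP.dop p E)
      (fun i => i.elim (IsLocalization.Away.invSelf (ev u p))
        fun j => algebraMap R _ (u j)) where
  pt := by
    rw [Pt.dop_iff]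
    refine ⟨?_, h.pt.map _⟩
    have h1 := ev_map (algebraMap R (Localization.Away (ev u p))) u p
    simp only [Option.elim]
    rw [← h1, mul_comm]
    exact IsLocalization.Away.mul_invSelf _
  ex A _ x hx := by
    rw [Pt.dop_iff] at hx
    obtain ⟨φ, hφ⟩ := h.ex A _ hx.2
    have h1 : φ (ev u p) = ev (fun i => x (some i)) p := by
      rw [ev_map, show (fun i => φ (u i)) = fun i => x (some i) from funext hφ]
    have h2 : IsUnit (φ (ev u p)) := by
      rw [h1]
      exact IsUnit.of_mul_eq_one_right _ hx.1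
    refine ⟨IsLocalization.Away.lift (ev u p) h2, fun i => ?_⟩
    have h3 : ∀ a, (IsLocalization.Away.lift (ev u p) h2 : Localization.Away (ev u p) →+* A)
        (algebraMap R _ a) = φ a := fun a => IsLocalization.Away.lift_eq _ _ _
    rcases i with _ | j
    · simp only [Option.elim]
      have h4 := congrArg (IsLocalization.Away.lift (ev u p) h2 :
        Localization.Away (ev u p) →+* A)
        (IsLocalization.Away.mul_invSelf (S := Localization.Away (ev u p)) (ev u p))
      rw [map_mul, map_one, h3, h1] at h4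
      have h5 := hx.1
      calc _ = (x none * ev (fun i => x (some i)) p) *
            (IsLocalization.Away.lift (ev u p) h2 : Localization.Away (ev u p) →+* A)
            (IsLocalization.Away.invSelf (ev u p)) := by rw [h5, one_mul]
        _ = x none * (ev (fun i => x (some i)) p *
            (IsLocalization.Away.lift (ev u p) h2 : Localization.Away (ev u p) →+* A)
            (IsLocalization.Away.invSelf (ev u p))) := by ring
        _ = x none := by rw [h4, mul_one]
    · simp only [Option.elim]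
      rw [h3, hφ]
  uniq A _ φ ψ hh := by
    refine IsLocalization.ringHom_ext (Submonoid.powers (ev u p)) ?_
    exact h.uniq A _ _ fun i => hh (some i)

end Pool.Agent.Helper81.CP
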