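import Pool.Agent.Helper81.CP.Half
import Pool.Agent.Helper81.CP.Eul

/-!
# Homology theories with localization and homotopy invariance
-/

set_option autoImplicit false

open AlgebraicGeometry CategoryTheory MvPolynomial
open Pool.Agent.Helper29.Zeta

namespace Pool.Agent.Helper81.CP

universe u

/-- Borel-Moore homology theories on schemes of finite type over `ℤ` -/
structure IsTheory (H : Scheme.{0} → ℤ → ℤ → ModuleCat.{u} ℚ) : Prop where
  empty : ∀ X : Scheme.{0}, IsEmpty X → ∀ s i, Subsingleton (H X s i)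
  bounded : ∀ X : Scheme.{0}, IsFT X → ∃ s₀ : ℤ, ∀ s, s₀ ≤ s → ∀ i, Subsingleton (H X s i)
  line : ∀ (R : Type) [CommRing R], IsFT (Spec (CommRingCat.of R)) → ∀ s i : ℤ,
    Nonempty (H (Spec (CommRingCat.of (Polynomial R))) (s + 1) i ≃ₗ[ℚ]
      H (Spec (CommRingCat.of R)) s i)
  localization : ∀ (X Z U : Scheme.{0}) (ι : Z ⟶ X) (j : U ⟶ X), IsFT X → IsClosedImmersion ι →
    IsOpenImmersion j → Set.range j = (Set.range ι)ᶜ → ∀ s : ℤ,
    LongExact (H Z s) (H X s) (H U s)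

/-- the statements of both questions for `X` -/
def BS (H : Scheme.{0} → ℤ → ℤ → ModuleCat.{u} ℚ) (X : Scheme.{0}) : Prop :=
  ∃ F : ℂ → ℂ, IsCont X F ∧ ∀ s : ℤ, FinTot (H X s) ∧
    meromorphicOrderAt F (s : ℂ) = ((-euler (H X s) : ℤ) : WithTop ℤ)

/-- continuation to the half plane and the second question in weight `s` -/
def Ps (H : Scheme.{0} → ℤ → ℤ → ModuleCat.{u} ℚ) (X : Scheme.{0}) (s : ℤ) : Prop :=
  FinTot (H X s) ∧ ∃ F : ℂ → ℂ, ContOn X s F ∧
    meromorphicOrderAt F (s : ℂ) = ((-euler (H X s) : ℤ) : WithTop ℤ)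

lemma finTot_of_subsingleton {V : ℤ → ModuleCat.{u} ℚ} (h : ∀ i, Subsingleton (V i)) :
    FinTot V := by
  refine ⟨fun i => ?_, ?_⟩
  · have := h i
    infer_instance
  · have : {i : ℤ | Nontrivial (V i)} = ∅ := by
      ext i
      simp only [Set.mem_ofPred_eq, Set.mem_empty_iff_false, iff_false]
      exact not_nontrivial_iff_subsingleton.mpr (h i)
    rw [this]
    exact Set.finite_empty

lemma euler_of_subsingleton {V : ℤ → ModuleCat.{u} ℚ} (h : ∀ i, Subsingleton (V i)) :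
    euler V = 0 := by
  unfold euler
  rw [← finsum_zero (α := ℤ)]
  refine finsum_congr fun i => ?_
  have := h i
  rw [Module.finrank_zero_of_subsingleton]
  simp

lemma finTot_congr {V W : ℤ → ModuleCat.{u} ℚ} (e : ∀ i, Nonempty (V i ≃ₗ[ℚ] W i)) (h : FinTot V) :
    FinTot W := by
  refine ⟨fun i => ?_, ?_⟩
  · obtain ⟨f⟩ := e i
    have := h.1 i
    exact Module.Finite.equiv f
  · refine h.2.subset fun i hi => ?_
    obtain ⟨f⟩ := e i
    have : Nontrivial (W i) := hi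
    exact f.toEquiv.nontrivial

lemma euler_congr {V W : ℤ → ModuleCat.{u} ℚ} (e : ∀ i, Nonempty (V i ≃ₗ[ℚ] W i)) :
    euler V = euler W := by
  unfold euler
  refine finsum_congr fun i => ?_
  obtain ⟨f⟩ := e i
  rw [f.finrank_eq]

/-- orders in a product with an inverse -/
lemma ord_div {E F : ℂ → ℂ} {z : ℂ} (hE : MeromorphicAt E z) (hF : MeromorphicAt F z) {a b : ℤ}
    (ha : meromorphicOrderAt E z = (a : WithTop ℤ)) (hb : meromorphicOrderAt F z = (b : WithTop ℤ)) :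
    meromorphicOrderAt (E * F⁻¹) z = ((a - b : ℤ) : WithTop ℤ) := by
  rw [meromorphicOrderAt_mul hE hF.inv, meromorphicOrderAt_inv, ha, hb]
  rfl

/-- continuation to half planes as a cut-and-paste property -/
theorem schemeCP_cont : SchemeCP (fun X s => ∃ F : ℂ → ℂ, ContOn X s F) := by
  constructor
  · intro X hX s
    exact ⟨_, (contOn_empty hX s).1⟩
  · intro X hX
    obtain ⟨s₀, hs₀⟩ := contOn_far hX
    exact ⟨s₀, fun s hs => ⟨_, (hs₀ s hs).1⟩⟩
  · rintro X Z U ι j hX hι hj h s ⟨F, hF⟩ ⟨G, hG⟩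
    exact ⟨_, ContOn.mul hX ι j hι hj h hF hG⟩
  · rintro X Z U ι j hX hι hj h s ⟨E, hE⟩ ⟨F, hF⟩
    exact ⟨_, ContOn.right hX ι j hι hj h hE hF⟩
  · rintro X Z U ι j hX hι hj h s ⟨E, hE⟩ ⟨G, hG⟩
    exact ⟨_, ContOn.left hX ι j hι hj h hE hG⟩
  · intro R _ hR s
    constructor
    · rintro ⟨F, hF⟩
      exact ⟨_, (contOn_line R hR.ft s F).mp hF⟩
    · rintro ⟨F, hF⟩
      refine ⟨fun z => F (z - 1), (contOn_line R hR.ft s _).mpr ?_⟩
      simpa using hF

section

variable {H : Scheme.{0} → ℤ → ℤ → ModuleCat.{u} ℚ} (hH : IsTheory H)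

include hH

theorem schemeCP_Ps : SchemeCP (Ps H) := by
  constructor
  · intro X hX s
    have h1 : ∀ i, Subsingleton (H X s i) := hH.empty X hX s
    refine ⟨finTot_of_subsingleton h1, _, (contOn_empty hX s).1, ?_⟩
    rw [euler_of_subsingleton h1, (contOn_empty hX s).2]
    rfl
  · intro X hX
    obtain ⟨s₀, hs₀⟩ := hH.bounded X hX
    obtain ⟨s₁, hs₁⟩ := contOn_far hX
    refine ⟨max s₀ s₁, fun s hs => ?_⟩
    have hs' := max_le_iff.mp hs
    have h1 := hs₀ s hs'.1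
    refine ⟨finTot_of_subsingleton h1, _, (hs₁ s hs'.2).1, ?_⟩
    rw [euler_of_subsingleton h1, (hs₁ s hs'.2).2]
    rfl
  · rintro X Z U ι j hX hι hj h s ⟨hZ, F, hF, hF'⟩ ⟨hU, G, hG, hG'⟩
    have hl := hH.localization X Z U ι j hX hι hj h s
    have hf := hl.finTot_mid hZ hU
    refine ⟨hf, _, ContOn.mul hX ι j hι hj h hF hG, ?_⟩
    rw [meromorphicOrderAt_mul (hF.1 _ (self_mem_HP s)) (hG.1 _ (self_mem_HP s)), hF', hG',
      hl.euler hZ hf hU, ← WithTop.coe_add]
    congr 1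
    ring
  · rintro X Z U ι j hX hι hj h s ⟨hX', E, hE, hE'⟩ ⟨hZ, F, hF, hF'⟩
    have hl := hH.localization X Z U ι j hX hι hj h s
    have hf := hl.finTot_right hZ hX'
    refine ⟨hf, _, ContOn.right hX ι j hι hj h hE hF, ?_⟩
    rw [ord_div (hE.1 _ (self_mem_HP s)) (hF.1 _ (self_mem_HP s)) hE' hF', hl.euler hZ hX' hf]
    congr 1
    ring
  · rintro X Z U ι j hX hι hj h s ⟨hX', E, hE, hE'⟩ ⟨hU, G, hG, hG'⟩
    have hl := hH.localization X Z U ι j hX hι hj h s
    have hf := hl.finTot_left hX' hU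
    refine ⟨hf, _, ContOn.left hX ι j hι hj h hE hG, ?_⟩
    rw [ord_div (hE.1 _ (self_mem_HP s)) (hG.1 _ (self_mem_HP s)) hE' hG', hl.euler hf hX' hU]
    congr 1
    ring
  · intro R _ hR s
    have hA : FT R := hR.ft
    have e := hH.line R hR s
    constructor
    · rintro ⟨h1, F, hF, hF'⟩
      refine ⟨finTot_congr e h1, _, (contOn_line R hA s F).mp hF, ?_⟩
      rw [← euler_congr e, ← hF']
      have h4 := meromorphicOrderAt_comp_add_const_eq_meromorphicOrderAt (𝕜 := ℂ) (c := 1)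
        (f := F) (x := (s : ℂ))
      have h5 : ((s + 1 : ℤ) : ℂ) = (s : ℂ) + 1 := by push_cast; ring
      rw [h5]
      exact h4
    · rintro ⟨h1, F, hF, hF'⟩
      refine ⟨finTot_congr (fun i => ⟨(e i).some.symm⟩) h1, fun z => F (z - 1),
        (contOn_line R hA s _).mpr (by simpa using hF), ?_⟩
      rw [euler_congr e, ← hF']
      have h4 := meromorphicOrderAt_comp_sub_const_eq_meromorphicOrderAt (𝕜 := ℂ) (c := 1)
        (f := F) (x := ((s + 1 : ℤ) : ℂ))
      have h5 : (((s + 1 : ℤ) : ℂ) - 1) = (s : ℂ) := by push_cast; ring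
      rw [h5] at h4
      exact h4

end

lemma IsCont.contOn {X : Scheme.{0}} {F : ℂ → ℂ} (h : IsCont X F) (s : ℤ) : ContOn X s F :=
  ⟨fun z _ => h.1 z trivial, h.2⟩

/-- **The reduction.** For each scheme `X` of finite type over `ℤ`, all large `n` and `c = 0` or
`c = 1`: if the zeta functions of the schemes `form n T = c` continue then so does that of `X`,
and for each homology theory both questions for the schemes `form n T = c` imply both questions
for `X`. -/
theorem main (X : Scheme.{0}) (hX : IsFT X) :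
    ∃ N : ℕ, ∀ n, N ≤ n → ∀ c : ℤ, c = 0 ∨ c = 1 →
      ((∀ T : Finset (Fin n × Fin n × Fin n), ∃ F, IsCont (Hyp n c T) F) → ∃ F, IsCont X F) ∧
      ∀ H : Scheme.{0} → ℤ → ℤ → ModuleCat.{u} ℚ, IsTheory H →
        (∀ T : Finset (Fin n × Fin n × Fin n), BS H (Hyp n c T)) → BS H X := by
  obtain ⟨N, hN⟩ := exists_bound_scheme X hX
  refine ⟨N, fun n hn c hc => ⟨fun h => ?_, fun H hH h => ?_⟩⟩
  · refine exists_isCont hX (hN n hn c hc _ schemeCP_cont fun T s => ?_)
    obtain ⟨F, hF⟩ := h T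
    exact ⟨F, hF.contOn s⟩
  · have key := hN n hn c hc _ (schemeCP_Ps hH) fun T s => by
      obtain ⟨F, hF, hF'⟩ := h T
      exact ⟨(hF' s).1, F, hF.contOn s, (hF' s).2⟩
    obtain ⟨F, hF⟩ := exists_isCont hX fun s => by
      obtain ⟨_, G, hG, _⟩ := key s
      exact ⟨G, hG⟩
    refine ⟨F, hF, fun s => ?_⟩
    obtain ⟨h1, G, hG, hG'⟩ := key s
    exact ⟨h1, by rw [(hF.contOn s).unique hG, hG']⟩

end Pool.Agent.Helper81.CP
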