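import Pool.Agent.Helper81.CP.Pres

/-!
# From trilinear forms to all rings of finite type over `ℤ`
-/

set_option autoImplicit false

open MvPolynomial
open scoped Classical

namespace Pool.Agent.Helper81.CP

variable {Q : ∀ (R : Type) [CommRing R], ℤ → Prop}

/-- The trilinear form `∑ x_i y_j z_l` over the triples `(i, j, l)` of `T`; the variables
`x_i`, `y_j`, `z_l` are the variables `(0, i)`, `(1, j)`, `(2, l)`. -/
noncomputable def form (n : ℕ) (T : Finset (Fin n × Fin n × Fin n)) :
    MvPolynomial (Fin 3 × Fin n) ℤ :=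
  ∑ t ∈ T, X (0, t.1) * X (1, t.2.1) * X (2, t.2.2)

lemma ev_form {n : ℕ} (T : Finset (Fin n × Fin n × Fin n)) {A : Type} [CommRing A]
    (x : Fin 3 × Fin n → A) :
    ev x (form n T) = ∑ t ∈ T, x (0, t.1) * x (1, t.2.1) * x (2, t.2.2) := by
  simp only [form, map_sum, map_mul, ev_X]

lemma Pt.singleton_iff {σ : Type} {p : MvPolynomial σ ℤ} {A : Type} [CommRing A] {x : σ → A} :
    Pt {p} x ↔ ev x p = 0 := by
  simp [Pt]

lemma Pt.empty {σ : Type} {A : Type} [CommRing A] {x : σ → A} :
    Pt (∅ : Set (MvPolynomial σ ℤ)) x := by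
  simp [Pt]

section

variable (hQ : RingCP Q)

include hQ

lemma RingCP.good_lft_free {σ : Type} [Finite σ] (E : Set (MvPolynomial σ ℤ)) :
    Good Q (dop (X none) (lft E)) ↔ Good Q E := by
  rw [← hQ.good_line E]
  refine (hQ.good_free_opn (lft E) none ?_).symm
  intro A _ x y hxy hx
  rw [Pt.lft_iff] at hx ⊢
  have h1 : (fun i => y (some i)) = fun i => x (some i) :=
    funext fun i => hxy (some i) (by simp)
  rw [h1]
  exact hx

/-- the affine spaces -/
lemma RingCP.good_empty (h1 : Good Q {form 1 {(0, 0, 0)} - 1})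
    (σ : Type) [Finite σ] : Good Q (∅ : Set (MvPolynomial σ ℤ)) := by
  have hpt : ∀ (A : Type) [CommRing A] (x : Fin 3 × Fin 1 → A),
      Pt {form 1 {(0, 0, 0)} - 1} x ↔ x (0, 0) * x (1, 0) * x (2, 0) = 1 := by
    intro A _ x
    rw [Pt.singleton_iff, map_sub, ev_form, map_one, Finset.sum_singleton, sub_eq_zero]
  let D0 : Set (MvPolynomial Empty ℤ) := ∅
  let D1 : Set (MvPolynomial (Option (Option Empty)) ℤ) := dop (X none) (lft D0)
  have h2 : Good Q (dop (X none) (lft D1)) := by
    intro s
    refine (hQ.qs_iso (E := {form 1 {(0, 0, 0)} - 1}) (E' := dop (X none) (lft D1))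
      (fun A _ x => fun o => o.elim (x (1, 0) * x (2, 0)) fun o => o.elim (x (0, 0))
        fun o => o.elim (x (0, 0) * x (2, 0)) fun o => o.elim (x (1, 0)) fun e => e.elim)
      (fun A _ z => fun q => if q.1 = 0 then z (some none) else if q.1 = 1 then
        z (some (some (some none))) else z none * z (some (some none))) ?_ ?_ ?_ ?_ ?_ ?_ s).mp
      (h1 s)
    · intro A B _ _ φ x _ j
      rcases j with _ | _ | _ | _ | j
      · exact map_mul _ _ _
      · rfl
      · exact map_mul _ _ _
      · rfl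
      · exact j.elim
    · intro A B _ _ φ z _ q
      simp only []
      split_ifs <;> simp
    · intro A _ x hx
      rw [hpt] at hx
      rw [Pt.dop_iff, Pt.lft_iff, Pt.dop_iff, Pt.lft_iff]
      refine ⟨?_, ?_, Pt.empty⟩
      · simp only [ev_X, Option.elim]
        linear_combination hx
      · simp only [ev_X, Option.elim]
        linear_combination hx
    · intro A _ z hz
      rw [Pt.dop_iff, Pt.lft_iff, Pt.dop_iff, Pt.lft_iff] at hz
      rw [hpt]
      obtain ⟨hz1, hz2, _⟩ := hz
      simp only [ev_X] at hz1 hz2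
      simp
      linear_combination z (some (some (some none))) * z (some (some none)) * hz1 + hz2
    · intro A _ x hx
      rw [hpt] at hx
      funext ⟨a, b⟩
      have hb : b = 0 := Subsingleton.elim _ _
      subst hb
      fin_cases a
      · simp
      · simp
      · simp
        linear_combination x (2, 0) * hx
    · intro A _ z hz
      rw [Pt.dop_iff, Pt.lft_iff, Pt.dop_iff, Pt.lft_iff] at hz
      obtain ⟨hz1, hz2, _⟩ := hz
      simp only [ev_X] at hz1 hz2
      funext o
      rcases o with _ | _ | _ | _ | o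
      · simp
        linear_combination z none * hz2
      · simp
      · simp
        linear_combination z (some (some none)) * hz1
      · simp
      · exact o.elim
  have h3 : Good Q D0 := (hQ.good_lft_free D0).mp ((hQ.good_lft_free D1).mp h2)
  have h4 := (hQ.good_emb (τ := σ) (Empty.elim : Empty → σ) (fun a => a.elim) D0).mpr h3
  refine (hQ.good_congr fun A _ x => ?_).mp h4
  exact ⟨fun _ => Pt.empty, fun _ => by simp [Pt, D0]⟩

/-- the case of one variable of each kind -/
lemma RingCP.good_one {n : ℕ} (hn : 1 ≤ n)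
    (h : ∀ T : Finset (Fin n × Fin n × Fin n), Good Q {form n T - 1}) :
    Good Q {form 1 {(0, 0, 0)} - 1} := by
  let i₀ : Fin n := ⟨0, hn⟩
  let k : Fin 3 × Fin 1 → Fin 3 × Fin n := fun q => (q.1, i₀)
  have hk : Function.Injective k := by
    rintro ⟨a, b⟩ ⟨c, d⟩ hh
    simp only [k, Prod.mk.injEq, and_true] at hh
    rw [hh, Subsingleton.elim b d]
  rw [← hQ.good_emb k hk]
  refine (hQ.good_congr fun A _ x => ?_).mp (h {(i₀, i₀, i₀)})
  rw [Pt.singleton_iff, map_sub, ev_form, Finset.sum_singleton]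
  simp only [Pt, Set.image_singleton, Set.mem_singleton_iff, forall_eq, ev_rename, map_sub,
    map_one, ev_form, Finset.sum_singleton]
  rfl

/-- from `form = 1` to `form = 0` -/
lemma RingCP.good_cone (h1 : Good Q {form 1 {(0, 0, 0)} - 1})
    {n : ℕ} {T : Finset (Fin n × Fin n × Fin n)} (h : Good Q {form n T - 1}) :
    Good Q {form n T} := by
  have h1' : Good Q (insert (form n T - 1) ∅) := by
    rwa [← insert_empty_eq] at h
  have h2 : Good Q (dop (form n T) ∅) := by
    refine (hQ.good_scale ∅ {q | q.1 = 2} (form n T) (fun A _ x c _ => Pt.empty) ?_).mpr h1'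
    intro A _ x c
    rw [ev_form, ev_form, Finset.mul_sum]
    refine Finset.sum_congr rfl fun t _ => ?_
    simp [scl]
    ring
  rw [← insert_empty_eq]
  exact fun s => hQ.closed' (hQ.good_empty h1 _ s) (h2 s)

/-- from the standard trilinear forms to all families of bilinear forms -/
lemma RingCP.good_mix_bil {n : ℕ}
    (h : ∀ T : Finset (Fin n × Fin n × Fin n), Good Q {form n T})
    {I J K : Type} [Finite I] [Finite J] [Finite K]
    (hn : Nat.card I + Nat.card J + Nat.card K ≤ n) (F : K → Finset (I × J)) (B : Finset K) :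
    Good Q (mix (fun κ => bil (F κ)) ∅ B) := by
  have := Fintype.ofFinite I
  have := Fintype.ofFinite J
  have := Fintype.ofFinite K
  rw [Nat.card_eq_fintype_card, Nat.card_eq_fintype_card, Nat.card_eq_fintype_card] at hn
  obtain ⟨eI⟩ : Nonempty (I ↪ Fin n) := Function.Embedding.nonempty_of_card_le (by simp; omega)
  obtain ⟨eJ⟩ : Nonempty (J ↪ Fin n) := Function.Embedding.nonempty_of_card_le (by simp; omega)
  obtain ⟨eK⟩ : Nonempty (K ↪ Fin n) := Function.Embedding.nonempty_of_card_le (by simp; omega)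
  let k : (I ⊕ J) ⊕ K → Fin 3 × Fin n :=
    Sum.elim (Sum.elim (fun i => (0, eI i)) (fun j => (1, eJ j))) (fun κ => (2, eK κ))
  have hk : Function.Injective k := by
    rintro ((i | i) | i) ((j | j) | j) hij <;> simp [k] at hij <;> simp [hij]
  let g : (Σ _ : K, I × J) → Fin n × Fin n × Fin n := fun s => (eI s.2.1, eJ s.2.2, eK s.1)
  have hg : Function.Injective g := by
    rintro ⟨κ, i, j⟩ ⟨κ', i', j'⟩ hh
    simp only [g, Prod.mk.injEq, EmbeddingLike.apply_eq_iff_eq] at hh
    obtain ⟨rfl, rfl, rfl⟩ := hh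
    rfl
  rw [← hQ.good_emb k hk]
  refine (hQ.good_congr fun A _ x => ?_).mp (h ((B.sigma F).image g))
  rw [Pt.singleton_iff, ev_form, Finset.sum_image (fun a _ b _ h => hg h), Finset.sum_sigma]
  have e : Pt (rename k '' (mix (fun κ => bil (F κ)) ∅ B)) x ↔
      Pt (mix (fun κ => bil (F κ)) ∅ B) (fun i => x (k i)) := by
    simp only [Pt, Set.forall_mem_image, ev_rename]
  rw [e, Pt.mix_iff]
  have e2 : ∑ κ ∈ B, ∑ p ∈ F κ, x (0, (g ⟨κ, p⟩).1) * x (1, (g ⟨κ, p⟩).2.1) *
      x (2, (g ⟨κ, p⟩).2.2) =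
      ∑ κ ∈ B, x (k (Sum.inr κ)) * ev (fun i => x (k (Sum.inl i))) (bil (F κ)) := by
    refine Finset.sum_congr rfl fun κ _ => ?_
    rw [ev_bil, Finset.mul_sum]
    refine Finset.sum_congr rfl fun p _ => ?_
    simp only [g, k, Sum.elim_inl, Sum.elim_inr]
    ring
  rw [e2]
  simp

end

/-- **The induction principle for rings.** For each ring `A` of finite type over `ℤ` and all
large `n`, a graded cut-and-paste property which holds for the equations `form n T = c`, where
`c = 0` or `c = 1`, holds for `A`. -/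
theorem exists_bound (A : Type) [CommRing A] (hA : FT A) :
    ∃ N : ℕ, ∀ n, N ≤ n → ∀ c : ℤ, c = 0 ∨ c = 1 →
      ∀ Q : ∀ (R : Type) [CommRing R], ℤ → Prop, RingCP Q →
      (∀ T : Finset (Fin n × Fin n × Fin n), Good Q {form n T - C c}) → ∀ s, Q A s := by
  obtain ⟨I, J, K, _, _, _, i₀, j₀, F, u, hu⟩ := exists_slice hA
  refine ⟨Nat.card I + Nat.card J + Nat.card K + 1, fun n hn c hc Q hQ h s => ?_⟩
  have h0 : ∀ T : Finset (Fin n × Fin n × Fin n), Good Q {form n T} := by
    rcases hc with rfl | rfl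
    · simpa using h
    · have h' : ∀ T : Finset (Fin n × Fin n × Fin n), Good Q {form n T - 1} := by
        simpa using h
      exact fun T => hQ.good_cone (hQ.good_one (by omega) h') (h' T)
  rw [hQ.rep_iff hu]
  refine hQ.good_sl2 i₀ j₀ (fun F' => ?_) F s
  exact hQ.good_range (fun κ => bil (F' κ)) (hQ.good_mix_bil h0 (by omega) F')

end Pool.Agent.Helper81.CP
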