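import Pool.Agent.Helper81.CP.Sch
import Pool.Agent.Helper29.Zeta.Geom

/-!
# Zeta functions under cutting and pasting
-/

set_option autoImplicit false

open AlgebraicGeometry CategoryTheory TopologicalSpace
open Pool.Agent.Helper29.Zeta

namespace Pool.Agent.Helper81.CP

/-- `F` is the meromorphic continuation of the zeta function of `X` -/
def IsCont (X : Scheme.{0}) (F : ℂ → ℂ) : Prop :=
  MeromorphicOn F Set.univ ∧ ∃ σ : ℝ, ∀ z : ℂ, σ < z.re → F z = zetaProd X z

/-- the order at a point depends only on the values in a right half plane -/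
lemma ord_unique {F G : ℂ → ℂ} (hF : MeromorphicOn F Set.univ) (hG : MeromorphicOn G Set.univ)
    {σ : ℝ} (h : ∀ z : ℂ, σ < z.re → F z = G z) (s : ℂ) :
    meromorphicOrderAt F s = meromorphicOrderAt G s := by
  have hD : MeromorphicOn (F - G) Set.univ := fun z hz => (hF z hz).sub (hG z hz)
  have hp : meromorphicOrderAt (F - G) ((σ + 1 : ℝ) : ℂ) = ⊤ := by
    rw [meromorphicOrderAt_eq_top_iff]
    have hopen : IsOpen {z : ℂ | σ < z.re} := isOpen_lt continuous_const Complex.continuous_re
    have hmem : ((σ + 1 : ℝ) : ℂ) ∈ {z : ℂ | σ < z.re} := by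
      simp
    refine Filter.Eventually.filter_mono nhdsWithin_le_nhds ?_
    filter_upwards [hopen.mem_nhds hmem] with z hz
    rw [Pi.sub_apply, h z hz, sub_self]
  have hs : meromorphicOrderAt (F - G) s = ⊤ := by
    by_contra hne
    exact hD.meromorphicOrderAt_ne_top_of_isPreconnected isPreconnected_univ trivial trivial
      hne hp
  rw [meromorphicOrderAt_eq_top_iff] at hs
  refine meromorphicOrderAt_congr ?_
  filter_upwards [hs] with z hz
  exact sub_eq_zero.mp hz

/-- the closed points of a scheme of finite type are counted by a function of polynomial growth -/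
lemma exists_count {X : Scheme.{0}} (hX : IsFT X) :
    ∃ c : ℕ → ℝ, Growth (fun n => (c n : ℂ)) ∧ HasCount (Set.univ : Set X) c := by
  obtain ⟨f, hf, hq⟩ := hX
  have hJ : JacobsonSpace X := LocallyOfFiniteType.jacobsonSpace f
  have hcomp : CompactSpace X := QuasiCompact.compactSpace_of_compactSpace f
  have key : ∃ c : ℕ → ℝ, Growth (fun n => (c n : ℂ)) ∧
      HasCount ((⊤ : X.Opens) : Set X) c := by
    refine compact_open_induction_on
      (P := fun S : X.Opens => ∃ c : ℕ → ℝ, Growth (fun n => (c n : ℂ)) ∧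
        HasCount (S : Set X) c) ⊤ isCompact_univ ?_ ?_
    · exact ⟨fun _ => 0, by simpa using Growth.const 0, HasCount.empty⟩
    · rintro S _ U ⟨c, hg, hc⟩
      have hUimm : IsOpenImmersion U.2.fromSpec := U.2.isOpenImmersion_fromSpec
      have hfg : Algebra.FiniteType ℤ Γ(X, U) := finiteType_of_imm f U.2.fromSpec
      have hZ : IsClosed (U.2.fromSpec ⁻¹' ((S : Set X)ᶜ)) :=
        S.isOpen.isClosed_compl.preimage U.2.fromSpec.continuous
      have h1 := hasCount_stratum U.2.fromSpec ((S : Set X)ᶜ) hZ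
      rw [U.2.range_fromSpec] at h1
      have hd : Disjoint (S : Set X) ((U : Set X) ∩ (S : Set X)ᶜ) := by
        rw [Set.disjoint_left]; intro x hx hx'; exact hx'.2 hx
      have h2 := hc.union h1 hd
      have e : (S : Set X) ∪ ((U : Set X) ∩ (S : Set X)ᶜ) = ((S ⊔ U : X.Opens) : Set X) := by
        ext x
        simp only [Set.mem_union, Set.mem_inter_iff, Set.mem_compl_iff,
          TopologicalSpace.Opens.coe_sup]
        tauto
      rw [e] at h2
      exact ⟨_, by simpa using hg.add (growth_cnt Γ(X, U) _), h2⟩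
  exact key

/-- transport of the counting function to the image -/
lemma HasCount.range {X Z : Scheme.{0}} (f : Z ⟶ X) (hinj : Function.Injective f)
    (hcl : ∀ z : Z, IsClosed ({f z} : Set X) ↔ IsClosed ({z} : Set Z))
    (hres : ∀ z : Z, Nat.card (X.residueField (f z)) = Nat.card (Z.residueField z))
    {c : ℕ → ℝ} (h : HasCount (Set.univ : Set Z) c) : HasCount (Set.range f) c := by
  intro n hn
  let e : clPts (Set.univ : Set Z) ≃ clPts (Set.range f) :=
    Equiv.ofBijective (fun z => ⟨f z.1, ⟨z.1, rfl⟩, (hcl z.1).mpr z.2.2⟩) (by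
      constructor
      · intro y y' h
        apply Subtype.ext
        exact hinj (congrArg Subtype.val h)
      · rintro ⟨x, ⟨y, rfl⟩, hx⟩
        exact ⟨⟨y, trivial, (hcl y).mp hx⟩, rfl⟩)
  rw [← e.hasSum_iff]
  have hfun : (((fun x : X => (mult (Nat.card (X.residueField x)) n : ℝ)) ∘
      ((↑) : clPts (Set.range f) → X)) ∘ e) =
      ((fun x : Z => (mult (Nat.card (Z.residueField x)) n : ℝ)) ∘
      ((↑) : clPts (Set.univ : Set Z) → Z)) := by
    funext y
    show (mult (Nat.card (X.residueField (f y.1))) n : ℝ) = _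
    rw [hres y.1]
    rfl
  rw [hfun]
  exact h n hn

lemma card_residueField_closed {X Z : Scheme.{0}} (ι : Z ⟶ X) [IsClosedImmersion ι] (z : Z) :
    Nat.card (X.residueField (ι z)) = Nat.card (Z.residueField z) := by
  have hs : Function.Surjective (ι.residueFieldMap z) := by
    intro y
    obtain ⟨a, rfl⟩ := Z.residue_surjective z y
    obtain ⟨b, rfl⟩ := ι.stalkMap_surjective z a
    refine ⟨X.residue (ι z) b, ?_⟩
    exact congrArg (fun φ : X.presheaf.stalk (ι z) ⟶ Z.residueField z => φ.hom b)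
      (Scheme.residue_residueFieldMap ι z)
  have hi : Function.Injective (ι.residueFieldMap z) :=
    (ι.residueFieldMap z).hom.injective
  exact Nat.card_congr (Equiv.ofBijective _ ⟨hi, hs⟩)

lemma card_residueField_open {X U : Scheme.{0}} (j : U ⟶ X) [IsOpenImmersion j] (z : U) :
    Nat.card (X.residueField (j z)) = Nat.card (U.residueField z) :=
  Nat.card_congr (asIso (j.residueFieldMap z)).commRingCatIsoToRingEquiv.toEquiv

/-- the zeta function is multiplicative -/
lemma zetaProd_mul {X Z U : Scheme.{0}} (hX : IsFT X) (ι : Z ⟶ X) (j : U ⟶ X)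
    (hι : IsClosedImmersion ι) (hj : IsOpenImmersion j) (h : Set.range j = (Set.range ι)ᶜ) :
    ∃ σ : ℝ, ∀ z : ℂ, σ < z.re → zetaProd X z = zetaProd Z z * zetaProd U z := by
  obtain ⟨cZ, hgZ, hcZ⟩ := exists_count (hX.of_isClosedImmersion ι hι)
  obtain ⟨cU, hgU, hcU⟩ := exists_count (hX.of_isOpenImmersion j hj)
  obtain ⟨fZ, hfZ, _⟩ := hX.of_isClosedImmersion ι hι
  obtain ⟨fU, hfU, _⟩ := hX.of_isOpenImmersion j hj
  obtain ⟨f, hf, _⟩ := hX
  have hJ : JacobsonSpace X := LocallyOfFiniteType.jacobsonSpace f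
  have hJZ : JacobsonSpace Z := LocallyOfFiniteType.jacobsonSpace fZ
  have hJU : JacobsonSpace U := LocallyOfFiniteType.jacobsonSpace fU
  have h1 : HasCount (Set.range ι) cZ := by
    refine HasCount.range ι ι.isClosedEmbedding.injective (fun z => ?_)
      (fun z => card_residueField_closed ι z) hcZ
    rw [← Set.image_singleton]
    exact ι.isClosedEmbedding.isClosed_iff_image_isClosed.symm
  have h2 : HasCount (Set.range j) cU := by
    refine HasCount.range j j.isOpenEmbedding.injective (fun z => ?_)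
      (fun z => card_residueField_open j z) hcU
    have h1 := j.isOpenEmbedding.preimage_closedPoints
    have h2 : j z ∈ closedPoints X ↔ z ∈ closedPoints U := by
      rw [← h1]; rfl
    exact h2
  have h3 := h1.union h2 (by rw [h]; exact disjoint_compl_right)
  rw [h, Set.union_compl_self] at h3
  obtain ⟨σ, hσ⟩ := euler_scheme f (c := fun n => cZ n + cU n) (by simpa using hgZ.add hgU) h3
  obtain ⟨σZ, hσZ⟩ := euler_scheme fZ hgZ hcZ
  obtain ⟨σU, hσU⟩ := euler_scheme fU hgU hcU
  obtain ⟨x, hx⟩ := D_add hgZ hgU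
  refine ⟨max (max σ x) (max σZ σU), fun z hz => ?_⟩
  have hz1 := max_lt_iff.mp (max_lt_iff.mp hz).1
  have hz2 := max_lt_iff.mp (max_lt_iff.mp hz).2
  rw [hσ z hz1.1, hσZ z hz2.1, hσU z hz2.2, ← Complex.exp_add, ← hx z hz1.2]
  push_cast
  rfl

/-- the zeta function does not vanish far to the right, and is analytic there -/
lemma zetaProd_ne {X : Scheme.{0}} (hX : IsFT X) :
    ∃ σ : ℝ, ∀ z : ℂ, σ < z.re → zetaProd X z ≠ 0 ∧ AnalyticAt ℂ (zetaProd X) z := by
  obtain ⟨c, hg, hc⟩ := exists_count hX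
  obtain ⟨f, hf, _⟩ := hX
  have hJ : JacobsonSpace X := LocallyOfFiniteType.jacobsonSpace f
  obtain ⟨σ, hσ⟩ := euler_scheme f hg hc
  obtain ⟨x, hx⟩ := hg.analytic
  refine ⟨max σ x, fun z hz => ?_⟩
  have hz1 := max_lt_iff.mp hz
  refine ⟨by rw [hσ z hz1.1]; exact Complex.exp_ne_zero _, ?_⟩
  have h1 : AnalyticAt ℂ (fun z => Complex.exp (D (fun n => (c n : ℂ)) z)) z :=
    AnalyticAt.cexp' (hx z hz1.2)
  refine h1.congr ?_
  have hopen : IsOpen {z : ℂ | σ < z.re} := isOpen_lt continuous_const Complex.continuous_re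
  filter_upwards [hopen.mem_nhds hz1.1] with w hw
  exact (hσ w hw).symm

lemma FT.inst {A : Type} [CommRing A] (hA : FT A) : Algebra.FiniteType ℤ A :=
  RingHom.finiteType_algebraMap.mp (ft_iff_finiteType.mp hA)

/-- the counting function of an affine scheme -/
lemma hasCount_spec (A : Type) [CommRing A] (hA : FT A) :
    HasCount (Set.univ : Set (Spec (CommRingCat.of A))) (cnt A ⊥) := by
  have hfg : Algebra.FiniteType ℤ A := hA.inst
  let f : Spec (CommRingCat.of A) ⟶ Spec (CommRingCat.of ℤ) :=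
    Spec.map (CommRingCat.ofHom (algebraMap ℤ A))
  have hf : LocallyOfFiniteType f := by
    rw [HasRingHomProperty.Spec_iff (P := @LocallyOfFiniteType)]
    exact ft_iff_finiteType.mp hA
  have hJ : JacobsonSpace (Spec (CommRingCat.of A)) := LocallyOfFiniteType.jacobsonSpace f
  have hfg' : Algebra.FiniteType ℤ (CommRingCat.of A) := hfg
  have h1 := hasCount_stratum (𝟙 (Spec (CommRingCat.of A))) Set.univ isClosed_univ
  have e : Set.range (𝟙 (Spec (CommRingCat.of A)) : Spec (CommRingCat.of A) ⟶ _) ∩ Set.univ =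
      (Set.univ : Set (Spec (CommRingCat.of A))) := by
    ext x; simp
  rw [e] at h1
  have hcongr : ∀ n, cnt (CommRingCat.of A) (PrimeSpectrum.vanishingIdeal
      ((𝟙 (Spec (CommRingCat.of A)) : Spec (CommRingCat.of A) ⟶ _) ⁻¹' Set.univ)) n =
      cnt A ⊥ n := fun n => ?_
  · rw [funext hcongr] at h1
    exact h1
  unfold cnt
  congr 1
  refine Nat.card_congr
    { toFun := fun φ => ⟨φ.1, bot_le⟩
      invFun := fun φ => ⟨φ.1, ?_⟩
      left_inv := fun φ => rfl
      right_inv := fun φ => rfl }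
  intro a ha
  exact (PrimeSpectrum.mem_vanishingIdeal _ a).mp ha
    (⟨RingHom.ker φ.1, RingHom.ker_isPrime φ.1⟩ : PrimeSpectrum A) trivial

lemma FT.polynomial {A : Type} [CommRing A] (hA : FT A) : FT (Polynomial A) := by
  rw [ft_iff_finiteType] at hA ⊢
  rw [RingHom.finiteType_algebraMap] at hA ⊢
  have h1 : Algebra.FiniteType A (Polynomial A) := inferInstance
  exact Algebra.FiniteType.trans hA h1

lemma cnt_polynomial (A : Type) [CommRing A] {n : ℕ} (hn : IsPrimePow n) :
    cnt (Polynomial A) ⊥ n = n * cnt A ⊥ n := by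
  have h1 : cnt (Polynomial A) ⊥ n = (Nat.card (FF n × {φ : A →+* FF n // ⊥ ≤ RingHom.ker φ}) : ℝ) := by
    unfold cnt
    congr 1
    refine Nat.card_congr
      { toFun := fun φ => (φ.1 Polynomial.X, ⟨φ.1.comp Polynomial.C, bot_le⟩)
        invFun := fun p => ⟨Polynomial.eval₂RingHom p.2.1 p.1, bot_le⟩
        left_inv := fun φ => ?_
        right_inv := fun p => ?_ }
    · apply Subtype.ext
      refine Polynomial.ringHom_ext' ?_ ?_
      · ext a; simp
      · simp
    · refine Prod.ext ?_ ?_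
      · simp
      · apply Subtype.ext
        ext a
        simp
  rw [h1, Nat.card_prod, card_FF hn]
  push_cast
  rfl

/-- the zeta function of the affine line over an affine scheme -/
lemma zetaProd_line (A : Type) [CommRing A] (hA : FT A) :
    ∃ σ : ℝ, ∀ z : ℂ, σ < z.re → zetaProd (Spec (CommRingCat.of (Polynomial A))) z =
      zetaProd (Spec (CommRingCat.of A)) (z - 1) := by
  have hfg := hA.inst
  have hfg' := hA.polynomial.inst
  have hc := hasCount_spec A hA
  have hc' := hasCount_spec (Polynomial A) hA.polynomial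
  have hg := growth_cnt A ⊥
  have hg' := growth_cnt (Polynomial A) ⊥
  obtain ⟨f, hf, _⟩ := hA.isFT
  obtain ⟨f', hf', _⟩ := hA.polynomial.isFT
  have hJ : JacobsonSpace (Spec (CommRingCat.of A)) := LocallyOfFiniteType.jacobsonSpace f
  have hJ' : JacobsonSpace (Spec (CommRingCat.of (Polynomial A))) :=
    LocallyOfFiniteType.jacobsonSpace f'
  obtain ⟨σ, hσ⟩ := euler_scheme f hg hc
  obtain ⟨σ', hσ'⟩ := euler_scheme f' hg' hc'
  refine ⟨max σ' (σ + 1), fun z hz => ?_⟩
  have hz1 := max_lt_iff.mp hz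
  have hz2 : σ < (z - 1).re := by
    simp only [Complex.sub_re, Complex.one_re]; linarith
  rw [hσ' z hz1.1, hσ (z - 1) hz2, ← D_shift]
  unfold D
  rw [coef_congr (c := fun n => ((cnt (Polynomial A) ⊥ n : ℝ) : ℂ))
    (c' := fun n => (n : ℂ) * ((cnt A ⊥ n : ℝ) : ℂ))]
  intro n hn
  rw [cnt_polynomial A hn]
  push_cast
  rfl

end Pool.Agent.Helper81.CP
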